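import Mathlib

/-! Definitions: facet-Hamiltonian polytopes and the type B permutahedra. -/

namespace Pool.Agent.V5helper11.TypeB

section

variable {E : Type*} [NormedAddCommGroup E] [NormedSpace ℝ E]

/-- `F` is a facet of the polytope `P`: a nonempty (exposed) face of dimension `dim P - 1` -/
def IsFacet (P F : Set E) : Prop :=
  F.Nonempty ∧ IsExposed ℝ P F ∧
    Module.finrank ℝ (vectorSpan ℝ F) + 1 = Module.finrank ℝ (vectorSpan ℝ P)

/-- `x` and `y` are the two ends of an edge of `P` -/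
def IsEdge (P : Set E) (x y : E) : Prop := x ≠ y ∧ IsExposed ℝ P (segment ℝ x y)

/-- The part of the closed sequence `c` lying in `F`, as a graph: its vertices are the vertices of
`c` in `F`, its edges the pairs of cyclically consecutive vertices whose segment lies in `F`. -/
def partGraph {N : ℕ} (c : ZMod N → E) (F : Set E) : SimpleGraph {i : ZMod N // c i ∈ F} where
  Adj i j := i ≠ j ∧ (j.1 = i.1 + 1 ∨ i.1 = j.1 + 1) ∧ segment ℝ (c i.1) (c j.1) ⊆ F
  symm := ⟨fun i j h => ⟨h.1.symm, h.2.1.symm, by rw [segment_symm]; exact h.2.2⟩⟩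
  loopless := ⟨fun i h => h.1 rfl⟩

/-- `P` is facet-Hamiltonian: there is a cycle (`N ≥ 3` distinct vertices of `P` in cyclic order,
consecutive ones joined by edges of `P`) whose part in each facet is nonempty and connected. -/
def FacetHamiltonian (P : Set E) : Prop :=
  ∃ (N : ℕ) (c : ZMod N → E), 3 ≤ N ∧ Function.Injective c ∧
    (∀ i, c i ∈ P.extremePoints ℝ) ∧ (∀ i, IsEdge P (c i) (c (i + 1))) ∧
    ∀ F : Set E, IsFacet P F → (partGraph c F).Connected

end

/-- the vectors `(ε₁ σ(1), …, εₙ σ(n))` with `σ` a permutation of `1, …, n` and signs `ε` -/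
def signedPerms (n : ℕ) : Set (Fin n → ℝ) :=
  {x | ∃ (σ : Equiv.Perm (Fin n)) (ε : Fin n → ℝ), (∀ i, ε i = 1 ∨ ε i = -1) ∧
    ∀ i, x i = ε i * (((σ i : Fin n) : ℕ) + 1)}

/-- the type B permutahedron -/
def typeBPermutahedron (n : ℕ) : Set (Fin n → ℝ) := convexHull ℝ (signedPerms n)

end Pool.Agent.V5helper11.TypeB
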