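import Mathlib

/-! Parity of lists and even rearrangements. -/

namespace Pool.Agent.V5helper11.TypeB

variable {α : Type*} [LinearOrder α]

/-- number of elements of `l` smaller than `a`, modulo two -/
def cnt (a : α) (l : List α) : ZMod 2 := (l.countP (fun b => decide (b < a)) : ℕ)

/-- number of inversions modulo two -/
def par : List α → ZMod 2
  | [] => 0
  | a :: l => cnt a l + par l

lemma two0 : (2 : ZMod 2) = 0 := rfl

lemma addself (x : ZMod 2) : x + x = 0 := CharTwo.add_self_eq_zero x

@[simp] lemma cnt_nil (a : α) : cnt a [] = 0 := by simp [cnt]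

lemma cnt_cons (a b : α) (l : List α) : cnt a (b :: l) = (if b < a then 1 else 0) + cnt a l := by
  unfold cnt
  rw [List.countP_cons]
  by_cases h : b < a <;> simp [h, add_comm]

lemma cnt_append (a : α) (l m : List α) : cnt a (l ++ m) = cnt a l + cnt a m := by
  unfold cnt
  rw [List.countP_append]; push_cast; ring

lemma cnt_perm (a : α) {l m : List α} (h : l.Perm m) : cnt a l = cnt a m := by
  unfold cnt
  rw [h.countP_eq]

@[simp] lemma par_nil : par ([] : List α) = 0 := rfl

lemma par_cons (a : α) (l : List α) : par (a :: l) = cnt a l + par l := rfl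

@[simp] lemma par_single (a : α) : par [a] = 0 := by simp [par_cons]

lemma par_swap {a b : α} (h : a ≠ b) (l : List α) :
    par (a :: b :: l) = par (b :: a :: l) + 1 := by
  simp only [par_cons, cnt_cons]
  rcases lt_or_gt_of_ne h with h1 | h1
  · have h2 : ¬ b < a := not_lt.mpr h1.le
    simp only [h1, h2, if_true, if_false]
    linear_combination (-1 : ZMod 2) * two0
  · have h2 : ¬ a < b := not_lt.mpr h1.le
    simp only [h1, h2, if_true, if_false]
    ring

/-- even rearrangement -/
def Ev (x y : List α) : Prop := x.Perm y ∧ par x = par y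

lemma Ev.refl (x : List α) : Ev x x := ⟨List.Perm.refl _, rfl⟩
lemma Ev.symm {x y : List α} (h : Ev x y) : Ev y x := ⟨h.1.symm, h.2.symm⟩
lemma Ev.trans {x y z : List α} (h : Ev x y) (h' : Ev y z) : Ev x z :=
  ⟨h.1.trans h'.1, h.2.trans h'.2⟩

lemma Ev.cons {x y : List α} (a : α) (h : Ev x y) : Ev (a :: x) (a :: y) := by
  refine ⟨h.1.cons a, ?_⟩
  rw [par_cons, par_cons, cnt_perm a h.1, h.2]

lemma Ev.of_cons {x y : List α} {a : α} (h : Ev (a :: x) (a :: y)) : Ev x y := by
  have h1 : x.Perm y := (List.perm_cons a).1 h.1
  refine ⟨h1, ?_⟩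
  have h2 := h.2
  rw [par_cons, par_cons, cnt_perm a h1] at h2
  exact add_left_cancel h2

lemma Ev.append_left {x y : List α} (C : List α) (h : Ev x y) : Ev (C ++ x) (C ++ y) := by
  induction C with
  | nil => simpa using h
  | cons a C ih => exact ih.cons a

lemma Ev.of_append_left {x y : List α} {C : List α} (h : Ev (C ++ x) (C ++ y)) : Ev x y := by
  induction C with
  | nil => simpa using h
  | cons a C ih => exact ih h.of_cons

/-- moving one element through a list -/
lemma par_rotate {a : α} {l : List α} (h : a ∉ l) :
    par (l ++ [a]) = par (a :: l) + (l.length : ZMod 2) := by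
  induction l with
  | nil => simp
  | cons b l ih =>
    have h1 : a ≠ b := by rintro rfl; simp at h
    have h2 : a ∉ l := fun h' => h (by simp [h'])
    have h3 := ih h2
    have h4 := par_swap h1 l
    rw [h4, List.cons_append, par_cons, h3, par_cons b (a :: l), cnt_append, cnt_cons, cnt_cons]
    push_cast [List.length_cons]
    simp only [cnt_nil]
    linear_combination (-1 : ZMod 2) * two0

lemma par_append_right {x y : List α} (h : x.Perm y) (Y : List α) :
    par (x ++ Y) + par y = par (y ++ Y) + par x := by
  induction h with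
  | nil => simp
  | cons a h ih =>
    simp only [List.cons_append, par_cons]
    rw [cnt_perm a (h.append_right Y), cnt_perm a h]
    linear_combination ih
  | swap a b l =>
    by_cases hab : a = b
    · subst hab; ring
    · simp only [List.cons_append]
      rw [par_swap (Ne.symm hab) (l ++ Y), par_swap (Ne.symm hab) l]
      ring
  | trans h1 h2 ih1 ih2 =>
    linear_combination ih1 + ih2

lemma Ev.append_right {x y : List α} (Y : List α) (h : Ev x y) : Ev (x ++ Y) (y ++ Y) := by
  refine ⟨h.1.append_right Y, ?_⟩
  have h1 := par_append_right h.1 Y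
  rw [h.2] at h1
  exact add_right_cancel h1

lemma Ev.of_append_right {x y Y : List α} (h : Ev (x ++ Y) (y ++ Y)) : Ev x y := by
  have h0 : x.Perm y := (List.perm_append_right_iff Y).1 h.1
  refine ⟨h0, ?_⟩
  have h1 := par_append_right h0 Y
  rw [h.2] at h1
  exact (add_left_cancel h1).symm

/-- parity is 0 or 1 -/
lemma par_cases (x y : ZMod 2) : x = y ∨ x = y + 1 := by
  revert x y; decide

end Pool.Agent.V5helper11.TypeB
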