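import Mathlib

/-! Walks on complete flags of faces of a cube, with the list of faces they visit. -/

namespace Pool.Agent.V5helper11.TypeB

variable {α : Type*} [DecidableEq α]

/-- a complete flag of faces of a cube: a vertex and an ordering of the directions -/
abbrev Flag (α : Type*) := (α → Bool) × List α

/-- the face through vertex `v` with set of free directions `A` -/
def face (v : α → Bool) (A : List α) : α → Option Bool :=
  fun d => if d ∈ A then none else some (v d)

/-- the flag `s` contains the face `f` -/
def Visits (s : Flag α) (f : α → Option Bool) : Prop := ∃ k, f = face s.1 (s.2.take k)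

/-- adjacency of flags -/
inductive Adj : Flag α → Flag α → Prop
  | flip (v : α → Bool) (a : α) (l : List α) :
      Adj (v, a :: l) (Function.update v a (!v a), a :: l)
  | swap (v : α → Bool) (C : List α) (a b : α) (l : List α) :
      Adj (v, C ++ a :: b :: l) (v, C ++ b :: a :: l)

lemma Adj.symm {s t : Flag α} (h : Adj s t) : Adj t s := by
  cases h with
  | flip v a l =>
    have := Adj.flip (Function.update v a (!v a)) a l
    simpa using this
  | swap v C a b l => exact Adj.swap v C b a l

/-- a walk of length `k` from `s` to `t` visiting all faces in `S` -/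
def Reach (s t : Flag α) (k : ℕ) (S : Set (α → Option Bool)) : Prop :=
  ∃ w : ℕ → Flag α, w 0 = s ∧ w k = t ∧ (∀ i < k, Adj (w i) (w (i + 1))) ∧
    ∀ f ∈ S, ∃ i ≤ k, Visits (w i) f

lemma Reach.refl (s : Flag α) {S : Set (α → Option Bool)} (h : ∀ f ∈ S, Visits s f) :
    Reach s s 0 S :=
  ⟨fun _ => s, rfl, rfl, fun i hi => absurd hi (by omega), fun f hf => ⟨0, le_rfl, h f hf⟩⟩

lemma Reach.mono {s t : Flag α} {k : ℕ} {S S' : Set (α → Option Bool)} (h : Reach s t k S)
    (hS : S' ⊆ S) : Reach s t k S' := by
  obtain ⟨w, h0, h1, h2, h3⟩ := h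
  exact ⟨w, h0, h1, h2, fun f hf => h3 f (hS hf)⟩

lemma Reach.trans {s t u : Flag α} {k l : ℕ} {S T : Set (α → Option Bool)}
    (h : Reach s t k S) (h' : Reach t u l T) : Reach s u (k + l) (S ∪ T) := by
  obtain ⟨w, h0, h1, h2, h3⟩ := h
  obtain ⟨w', h0', h1', h2', h3'⟩ := h'
  refine ⟨fun i => if i ≤ k then w i else w' (i - k), by simp [h0], ?_, ?_, ?_⟩
  · by_cases hl : l = 0
    · subst hl
      simp [h1, ← h0', ← h1']
    · have : ¬ (k + l ≤ k) := by omega
      simp [this, h1']
  · intro i hi
    by_cases hik : i < k
    · have h4 : i ≤ k := by omega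
      have h5 : i + 1 ≤ k := by omega
      simp only [h4, h5, if_true]
      exact h2 i hik
    · by_cases hik' : i = k
      · subst hik'
        have h5 : ¬ (i + 1 ≤ i) := by omega
        have h6 : i + 1 - i = 1 := by omega
        simp only [le_refl, if_true, h5, if_false, h6, h1, ← h0']
        exact h2' 0 (by omega)
      · have h4 : ¬ (i ≤ k) := by omega
        have h5 : ¬ (i + 1 ≤ k) := by omega
        have h6 : i + 1 - k = (i - k) + 1 := by omega
        simp only [h4, h5, if_false, h6]
        exact h2' (i - k) (by omega)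
  · rintro f (hf | hf)
    · obtain ⟨i, hi, hv⟩ := h3 f hf
      refine ⟨i, by omega, ?_⟩
      simpa [hi] using hv
    · obtain ⟨i, hi, hv⟩ := h3' f hf
      by_cases hi0 : i = 0
      · subst hi0
        refine ⟨k, by omega, ?_⟩
        simpa [h1, ← h0'] using hv
      · refine ⟨k + i, by omega, ?_⟩
        have h4 : ¬ (k + i ≤ k) := by omega
        have h5 : k + i - k = i := by omega
        simpa [h4, h5] using hv

lemma Reach.single {s t : Flag α} (h : Adj s t) : Reach s t 1 ∅ := by
  refine ⟨fun i => if i = 0 then s else t, by simp, by simp, ?_, by simp⟩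
  intro i hi
  have : i = 0 := by omega
  subst this
  simpa using h

lemma Reach.symm {s t : Flag α} {k : ℕ} {S : Set (α → Option Bool)} (h : Reach s t k S) :
    Reach t s k S := by
  obtain ⟨w, h0, h1, h2, h3⟩ := h
  refine ⟨fun i => w (k - i), by simp [h1], by simp [h0], ?_, ?_⟩
  · intro i hi
    have h4 : k - i = (k - (i + 1)) + 1 := by omega
    simp only [h4]
    exact (h2 (k - (i + 1)) (by omega)).symm
  · intro f hf
    obtain ⟨i, hi, hv⟩ := h3 f hf
    refine ⟨k - i, by omega, ?_⟩
    have h4 : k - (k - i) = i := by omega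
    simpa [h4] using hv

/-- moving an element to the front of a block -/
lemma moveFront (v : α → Bool) (a : α) (y : List α) : ∀ C Y : List α,
    Reach (v, C ++ y ++ a :: Y) (v, C ++ a :: y ++ Y) y.length ∅ := by
  induction y with
  | nil =>
    intro C Y
    simpa using Reach.refl (S := ∅) (v, C ++ a :: Y) (by simp)
  | cons b y ih =>
    intro C Y
    have h1 := ih (C ++ [b]) Y
    have h2 := Reach.single (Adj.swap v C b a (y ++ Y))
    have h1' : Reach (v, C ++ b :: y ++ a :: Y) (v, C ++ b :: a :: (y ++ Y)) y.length ∅ := by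
      simpa using h1
    have h3 := h1'.trans h2
    simpa using h3

lemma moveBack (v : α → Bool) (a : α) (y : List α) (C Y : List α) :
    Reach (v, C ++ a :: y ++ Y) (v, C ++ y ++ a :: Y) y.length ∅ :=
  (moveFront v a y C Y).symm

end Pool.Agent.V5helper11.TypeB
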