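import Mathlib
import Pool.Agent.V5helper11.TypeB.Walk
import Pool.Agent.V5helper11.TypeB.Parity

/-! Strips: walks with a fixed vertex that visit all prefixes sets of a block. -/

namespace Pool.Agent.V5helper11.TypeB

set_option linter.unusedSectionVars false

variable {α : Type*} [LinearOrder α]

/-- a strip from the block order `x` to the block order `z` -/
def Strip (x z : List α) : Prop :=
  z.Perm x ∧ ∀ (v : α → Bool) (C Y : List α) (k : ℕ), k + (x.length + 1) = 2 ^ x.length →
    Reach (v, C ++ x ++ Y) (v, C ++ z ++ Y) k {f | ∃ A : List α, A ⊆ x ∧ f = face v (C ++ A)}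

lemma Strip.symm {x z : List α} (h : Strip x z) : Strip z x := by
  refine ⟨h.1.symm, ?_⟩
  intro v C Y k hk
  rw [h.1.length_eq] at hk
  refine (h.2 v C Y k hk).symm.mono ?_
  rintro f ⟨A, hA, rfl⟩
  exact ⟨A, fun a ha => h.1.subset (hA ha), rfl⟩

lemma face_congr (v : α → Bool) {A B : List α} (h : ∀ a, a ∈ A ↔ a ∈ B) : face v A = face v B := by
  funext d
  simp only [face, h d]

lemma two_pow_ge (u : ℕ) : ∃ k, k + (u + 1) = 2 ^ u := by
  have h : u + 1 ≤ 2 ^ u := Nat.lt_two_pow_self
  exact ⟨2 ^ u - (u + 1), by omega⟩

lemma Strip.nil : Strip ([] : List α) [] := by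
  refine ⟨List.Perm.refl _, ?_⟩
  intro v C Y k hk
  have : k = 0 := by simpa using hk
  subst this
  refine Reach.refl _ ?_
  rintro f ⟨A, hA, rfl⟩
  refine ⟨C.length, ?_⟩
  apply face_congr
  have : A = [] := by
    cases A with
    | nil => rfl
    | cons a A => exact absurd (hA (by simp : a ∈ a :: A)) (by simp)
  subst this
  simp

/-- the basic recursion for strips -/
lemma Strip.lift {x y z : List α} (h1 : Strip x y) (h2 : Strip y z) (a : α) :
    Strip (x ++ [a]) (a :: z) := by
  have hlen : y.length = x.length := h1.1.length_eq
  refine ⟨?_, ?_⟩
  · have : (a :: z).Perm (a :: x) := (h2.1.trans h1.1).cons a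
    exact this.trans (List.perm_append_singleton a x).symm
  · intro v C Y k hk
    obtain ⟨k1, hk1⟩ := two_pow_ge x.length
    have e1 := h1.2 v C (a :: Y) k1 hk1
    have e2 := moveFront v a y C Y
    have e3 := h2.2 v (C ++ [a]) Y k1 (by rw [hlen]; exact hk1)
    have e12 := e1.trans e2
    have e3' : Reach (v, C ++ a :: y ++ Y) (v, C ++ (a :: z) ++ Y) k1
        {f | ∃ A : List α, A ⊆ y ∧ f = face v (C ++ [a] ++ A)} := by
      simpa using e3
    have e := e12.trans e3'
    have hkk : k1 + y.length + k1 = k := by
      simp only [List.length_append, List.length_singleton, pow_succ] at hk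
      rw [hlen]; omega
    rw [hkk] at e
    have e4 : (v, C ++ x ++ a :: Y) = ((v, C ++ (x ++ [a]) ++ Y) : Flag α) := by simp
    rw [e4] at e
    refine e.mono ?_
    rintro f ⟨A, hA, rfl⟩
    by_cases haA : a ∈ A
    · right
      refine ⟨A.filter (fun b => decide (b ≠ a)), ?_, ?_⟩
      · intro b hb
        simp only [List.mem_filter, decide_eq_true_eq] at hb
        have := hA hb.1
        simp only [List.mem_append, List.mem_singleton] at this
        rcases this with h | h
        · exact h1.1.symm.subset h
        · exact absurd h hb.2
      · apply face_congr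
        intro b
        simp only [List.mem_append, List.mem_filter, decide_eq_true_eq, List.mem_singleton]
        constructor
        · rintro (h | h)
          · exact Or.inl (Or.inl h)
          · by_cases hb : b = a
            · exact Or.inl (Or.inr hb)
            · exact Or.inr ⟨h, hb⟩
        · rintro ((h | h) | h)
          · exact Or.inl h
          · right; rw [h]; exact haA
          · exact Or.inr h.1
    · left; left
      refine ⟨A, ?_, rfl⟩
      intro b hb
      have := hA hb
      simp only [List.mem_append, List.mem_singleton] at this
      rcases this with h | h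
      · exact h
      · rw [h] at hb; exact absurd hb haA

/-- every list is the start of some strip -/
lemma Strip.exists (x : List α) : ∃ y, Strip x y := by
  induction x using List.reverseRecOn with
  | nil => exact ⟨[], Strip.nil⟩
  | append_singleton x a ih =>
    obtain ⟨y, hy⟩ := ih
    exact ⟨a :: x, Strip.lift hy hy.symm a⟩

/-- two consecutive strips -/
def Two (x z : List α) : Prop := ∃ y, Strip x y ∧ Strip y z

lemma Two.refl (x : List α) : Two x x := by
  obtain ⟨y, hy⟩ := Strip.exists x
  exact ⟨y, hy, hy.symm⟩

lemma Two.symm {x z : List α} (h : Two x z) : Two z x := by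
  obtain ⟨y, h1, h2⟩ := h
  exact ⟨y, h2.symm, h1.symm⟩

lemma Two.lift {x z : List α} (h : Two x z) (a : α) : Strip (x ++ [a]) (a :: z) := by
  obtain ⟨y, h1, h2⟩ := h
  exact Strip.lift h1 h2 a

/-- the rotation strip -/
lemma Strip.rot (x : List α) (a : α) : Strip (x ++ [a]) (a :: x) := (Two.refl x).lift a

lemma perm_two {p q : α} {z : List α} (h : z.Perm [p, q]) : z = [p, q] ∨ z = [q, p] := by
  have := List.mem_permutations'.2 h
  simpa [List.permutations', List.permutations'Aux] using this

lemma perm_three {p q r : α} {z : List α} (h : z.Perm [p, q, r]) :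
    z = [p, q, r] ∨ z = [q, p, r] ∨ z = [q, r, p] ∨ z = [p, r, q] ∨ z = [r, p, q] ∨ z = [r, q, p] := by
  have := List.mem_permutations'.2 h
  simpa [List.permutations', List.permutations'Aux, or_assoc] using this

lemma glast (l : List α) (q r : α) : (l ++ [q, r]).getLast? = some r := by
  have h : l ++ [q, r] = (l ++ [q]) ++ [r] := by simp
  rw [h]
  exact List.getLast?_concat

/-- an arrangement with prescribed parity, avoiding a given head and a given last element -/
lemma exists_mid (C : List α) (hC : C.Nodup) (hlen : 2 ≤ C.length) (t : ZMod 2) (a b : α) :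
    ∃ mid : List α, mid.Perm C ∧ par mid = t ∧
      (3 ≤ C.length → mid.head? ≠ some a ∧ mid.getLast? ≠ some b) := by
  match C, hC, hlen with
  | [p, q], hC, _ =>
    have hpq : p ≠ q := by
      simp at hC; exact hC
    rcases par_cases (par [p, q]) t with h | h
    · exact ⟨[p, q], List.Perm.refl _, h, fun h => by simp at h⟩
    · refine ⟨[q, p], List.Perm.swap _ _ _, ?_, fun h => by simp at h⟩
      have := par_swap hpq []
      rw [this] at h
      exact add_right_cancel h
  | p :: q :: r :: M, hC, _ =>
    have key : ∀ q r : α, (p :: q :: r :: M).Nodup → par (p :: M ++ [q, r]) = t →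
        ∃ mid : List α, mid.Perm (p :: q :: r :: M) ∧ par mid = t ∧
          mid.head? ≠ some a ∧ mid.getLast? ≠ some b := by
      intro q r hC hpar
      have hpq : p ≠ q := by simp at hC; tauto
      have hpr : p ≠ r := by simp at hC; tauto
      have hqr : q ≠ r := by simp at hC; tauto
      have hpM : p ∉ M := by simp at hC; tauto
      have hqM : q ∉ M := by simp at hC; tauto
      have hrM : r ∉ M := by simp at hC; tauto
      -- the three arrangements
      have P1 : (p :: M ++ [q, r]).Perm (p :: q :: r :: M) := by
        simp only [List.cons_append]
        refine List.Perm.cons p ?_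
        exact List.perm_append_comm
      have e2 : par (q :: M ++ [r, p]) = t := by
        -- par (q M r p) = par (p q M r) + (|M|+2), and par (p M q r) relates
        have h1 : par ((q :: M ++ [r]) ++ [p]) = par (p :: (q :: M ++ [r])) + ((q :: M ++ [r]).length : ZMod 2) := by
          apply par_rotate
          simp [hpq, hpM, hpr]
        have h2 : par (M ++ [q]) = par (q :: M) + (M.length : ZMod 2) := par_rotate hqM
        have h3 : Ev (M ++ [q] ++ [r]) (M ++ [q, r]) := by simpa using Ev.refl (M ++ [q, r])
        have h4 : par ((M ++ [q]) ++ [r]) + par (q :: M) = par ((q :: M) ++ [r]) + par (M ++ [q]) :=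
          par_append_right (List.perm_append_singleton q M) [r]
        have h5 : par (p :: M ++ [q, r]) = cnt p (M ++ [q, r]) + par (M ++ [q, r]) := rfl
        have h6 : par (p :: (q :: M ++ [r])) = cnt p (q :: M ++ [r]) + par (q :: M ++ [r]) := rfl
        have h7 : cnt p (M ++ [q, r]) = cnt p (q :: M ++ [r]) := by
          apply cnt_perm
          have : (M ++ [q, r]) = (M ++ [q]) ++ [r] := by simp
          rw [this]
          exact (List.perm_append_singleton q M).append_right [r]
        have h8 : (q :: M ++ [r, p]) = ((q :: M ++ [r]) ++ [p]) := by simp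
        rw [h8, h1, h6]
        rw [h5] at hpar
        have h9 : M ++ [q, r] = M ++ [q] ++ [r] := by simp
        rw [h7] at hpar
        rw [h9] at hpar
        have hl : ((q :: M ++ [r]).length : ZMod 2) = (M.length : ZMod 2) := by
          simp only [List.length_append, List.length_cons, List.length_nil]
          push_cast
          linear_combination two0
        rw [hl]
        rw [h2] at h4
        linear_combination hpar - h4
      have P2 : (q :: M ++ [r, p]).Perm (p :: q :: r :: M) := by
        have h1 : (q :: M ++ [r, p]) = ((q :: M) ++ [r]) ++ [p] := by simp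
        rw [h1]
        refine (List.perm_append_singleton p _).trans (List.Perm.cons p ?_)
        refine (List.perm_append_singleton r _).trans ?_
        exact List.Perm.swap q r M
      have e3 : par (r :: M ++ [p, q]) = t := by
        have h1 : par ((r :: M ++ [p]) ++ [q]) = par (q :: (r :: M ++ [p])) + ((r :: M ++ [p]).length : ZMod 2) := by
          apply par_rotate
          simp [hqr, hqM, Ne.symm hpq]
        have h2 : par (M ++ [r]) = par (r :: M) + (M.length : ZMod 2) := par_rotate hrM
        have h4 : par ((M ++ [r]) ++ [p]) + par (r :: M) = par ((r :: M) ++ [p]) + par (M ++ [r]) :=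
          par_append_right (List.perm_append_singleton r M) [p]
        have h6 : par (q :: (r :: M ++ [p])) = cnt q (r :: M ++ [p]) + par (r :: M ++ [p]) := rfl
        have h5 : par (q :: M ++ [r, p]) = cnt q (M ++ [r, p]) + par (M ++ [r, p]) := rfl
        have h7 : cnt q (M ++ [r, p]) = cnt q (r :: M ++ [p]) := by
          apply cnt_perm
          have : (M ++ [r, p]) = (M ++ [r]) ++ [p] := by simp
          rw [this]
          exact (List.perm_append_singleton r M).append_right [p]
        have h8 : (r :: M ++ [p, q]) = ((r :: M ++ [p]) ++ [q]) := by simp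
        rw [h8, h1, h6]
        rw [h5] at e2
        have h9 : M ++ [r, p] = M ++ [r] ++ [p] := by simp
        rw [h7] at e2
        rw [h9] at e2
        have hl : ((r :: M ++ [p]).length : ZMod 2) = (M.length : ZMod 2) := by
          simp only [List.length_append, List.length_cons, List.length_nil]
          push_cast
          linear_combination two0
        rw [hl]
        rw [h2] at h4
        linear_combination e2 - h4
      have P3 : (r :: M ++ [p, q]).Perm (p :: q :: r :: M) := by
        have h1 : (r :: M ++ [p, q]) = ((r :: M) ++ [p]) ++ [q] := by simp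
        rw [h1]
        refine (List.perm_append_singleton q _).trans ?_
        refine (List.Perm.cons q (List.perm_append_singleton p _)).trans ?_
        exact List.Perm.swap p q (r :: M)
      by_cases c1 : p ≠ a ∧ r ≠ b
      · exact ⟨p :: M ++ [q, r], P1, hpar, by simpa using c1.1, by
          have : (p :: M ++ [q, r]).getLast? = some r := glast _ _ _
          rw [this]; simpa using c1.2⟩
      · by_cases c2 : q ≠ a ∧ p ≠ b
        · exact ⟨q :: M ++ [r, p], P2, e2, by simpa using c2.1, by
            have : (q :: M ++ [r, p]).getLast? = some p := glast _ _ _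
            rw [this]; simpa using c2.2⟩
        · refine ⟨r :: M ++ [p, q], P3, e3, ?_, ?_⟩
          · have : r ≠ a := by
              intro h
              rw [h] at hpr hqr c1
              -- p ≠ a, so a = b ; q ≠ a so p = b
              have c1' : a = b := by by_contra hne; exact c1 ⟨hpr, hne⟩
              have c2' : p = b := by by_contra hne; exact c2 ⟨hqr, hne⟩
              exact hpr (c2'.trans c1'.symm)
            simpa using this
          · have h' : (r :: M ++ [p, q]).getLast? = some q := glast _ _ _
            rw [h']
            have : q ≠ b := by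
              intro h
              rw [h] at hpq hqr c2
              have c1' : p = a := by by_contra hne; exact c1 ⟨hne, Ne.symm hqr⟩
              have c2' : b = a := by by_contra hne; exact c2 ⟨hne, hpq⟩
              exact hpq (c1'.trans c2'.symm)
            simpa using this
    rcases par_cases (par (p :: M ++ [q, r])) t with h | h
    · obtain ⟨mid, h1, h2, h3⟩ := key q r hC h
      exact ⟨mid, h1, h2, fun _ => h3⟩
    · have hC' : (p :: r :: q :: M).Nodup := by
        have : (p :: r :: q :: M).Perm (p :: q :: r :: M) := (List.Perm.swap q r M).cons p
        exact this.nodup_iff.2 hC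
      have hqr : q ≠ r := by simp at hC; tauto
      have hpar' : par (p :: M ++ [r, q]) = t := by
        have h1 : Ev ([] : List α) [] := Ev.refl _
        have h2 : par (M ++ [r, q]) = par (M ++ [q, r]) + 1 := by
          have : ∀ M : List α, par (M ++ [r, q]) = par (M ++ [q, r]) + 1 := by
            intro M
            induction M with
            | nil => exact par_swap (Ne.symm hqr) []
            | cons c M ih =>
              simp only [List.cons_append, par_cons, ih]
              have : cnt c (M ++ [r, q]) = cnt c (M ++ [q, r]) :=
                cnt_perm c ((List.Perm.swap q r []).append_left M)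
              rw [this]; ring
          exact this M
        have h3 : cnt p (M ++ [r, q]) = cnt p (M ++ [q, r]) :=
                cnt_perm p ((List.Perm.swap q r []).append_left M)
        simp only [List.cons_append, par_cons] at h ⊢
        rw [h3, h2]
        linear_combination h + two0
      obtain ⟨mid, h1, h2, h3⟩ := key r q hC' hpar'
      exact ⟨mid, h1.trans ((List.Perm.swap q r M).cons p), h2, fun _ => h3⟩

end Pool.Agent.V5helper11.TypeB
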