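import Mathlib
import Pool.Agent.V5helper11.TypeB.Strip

/-! The main existence lemma for strips. -/

namespace Pool.Agent.V5helper11.TypeB

set_option linter.unusedSectionVars false

variable {α : Type*} [LinearOrder α]

lemma two_small_two {p q : α} {z : List α} (hpq : p ≠ q) (h : Ev [p, q] z) : Two [p, q] z := by
  rcases perm_two h.1.symm with rfl | rfl
  · exact Two.refl _
  · exfalso
    have h1 := h.2
    have h2 := par_swap hpq []
    rw [h2] at h1
    have : ∀ t : ZMod 2, t + 1 ≠ t := by decide
    exact this _ h1

lemma two_small_three {p q r : α} {z : List α} (hpq : p ≠ q) (hpr : p ≠ r) (hqr : q ≠ r)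
    (h : Ev [p, q, r] z) : Two [p, q, r] z := by
  have key : ∀ t : ZMod 2, t + 1 ≠ t := by decide
  have s1 : Strip [p, q, r] [r, p, q] := Strip.rot [p, q] r
  have s2 : Strip [q, r, p] [p, q, r] := Strip.rot [q, r] p
  have s3 : Strip [r, p, q] [q, r, p] := Strip.rot [r, p] q
  rcases perm_three h.1.symm with rfl | rfl | rfl | rfl | rfl | rfl
  · exact Two.refl _
  · exfalso
    have h1 := h.2
    rw [par_swap hpq [r]] at h1
    exact key _ h1
  · exact ⟨_, s1, s3⟩
  · exfalso
    have h1 := h.2
    rw [par_cons p [q, r], par_cons p [r, q], par_swap hqr [],
      cnt_perm p (List.Perm.swap r q [])] at h1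
    rw [← add_assoc] at h1
    exact key _ h1
  · exact ⟨_, s2.symm, s3.symm⟩
  · exfalso
    have h1 := h.2
    -- par [r,q,p] = par [q,r,p] + 1 ; par [q,r,p] = par [q,p,r]+1 ; par [q,p,r] = par [p,q,r]+1
    rw [par_swap (Ne.symm hqr) [p]] at h1
    have h2 : par [q, r, p] = par [q, p, r] + 1 := by
      rw [par_cons q [r, p], par_cons q [p, r], par_swap (Ne.symm hpr) [],
        cnt_perm q (List.Perm.swap p r [])]
      ring
    rw [h2, par_swap (Ne.symm hpq) [r]] at h1
    have h3 : ∀ t : ZMod 2, t ≠ t + 1 + 1 + 1 := by decide
    exact h3 _ h1

theorem two_main (N : ℕ) : ∀ x z : List α, x.length = N → x.Nodup → Ev x z →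
    (N ≤ 3 ∨ z.head? ≠ x.getLast? ∨ z.getLast? ≠ x.head?) → Two x z := by
  induction N with
  | zero =>
    intro x z hx hnd hev hc
    have hx0 : x = [] := List.length_eq_zero_iff.1 hx
    subst hx0
    have hz : z = [] := hev.1.symm.eq_nil
    subst hz
    exact Two.refl _
  | succ N ih =>
    intro x z hx hnd hev hc
    by_cases hN : N ≤ 2
    · match x, hx, hnd, hev with
      | [p], _, _, hev =>
        have hz : z = [p] := List.perm_singleton.1 hev.1.symm
        subst hz
        exact Two.refl _
      | [p, q], _, hnd, hev =>
        exact two_small_two (by simpa using hnd) hev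
      | [p, q, r], _, hnd, hev =>
        simp at hnd
        exact two_small_three (by tauto) (by tauto) (by tauto) hev
      | p :: q :: r :: s :: M, hx, _, _ =>
        simp at hx; omega
    · have key : ∀ x z : List α, x.length = N + 1 → x.Nodup → Ev x z → z.head? ≠ x.getLast? →
          Two x z := by
        clear hx hnd hev hc x z
        intro x z hx hnd hev hne
        -- decompose
        obtain ⟨x0, l, rfl⟩ : ∃ x0 l, x = x0 ++ [l] := by
          rcases List.eq_nil_or_concat x with h | ⟨x0, l, h⟩
          · subst h; simp at hx
          · exact ⟨x0, l, by simpa using h⟩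
        have hzlen : z.length = N + 1 := by rw [← hev.1.length_eq]; exact hx
        obtain ⟨s, z0, rfl⟩ : ∃ s z0, z = s :: z0 := by
          cases z with
          | nil => simp at hzlen
          | cons s z0 => exact ⟨s, z0, rfl⟩
        have hsl : s ≠ l := by
          intro h; apply hne; simp [h]
        have hx0len : x0.length = N := by simpa using hx
        have hz0len : z0.length = N := by simpa using hzlen
        have hlx0 : l ∉ x0 := by
          intro h
          rw [List.nodup_append] at hnd
          exact hnd.2.2 l h l (by simp) rfl
        have hx0nd : x0.Nodup := by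
          rw [List.nodup_append] at hnd
          exact hnd.1
        have hsx0 : s ∈ x0 := by
          have : s ∈ x0 ++ [l] := hev.1.symm.subset (by simp)
          simp only [List.mem_append, List.mem_singleton] at this
          rcases this with h | h
          · exact h
          · exact absurd h hsl
        have hxs : x0.Perm (s :: x0.erase s) := List.perm_cons_erase hsx0
        set C := x0.erase s with hC
        have hClen : C.length + 1 = N := by
          have := hxs.length_eq
          simp at this; omega
        have hsCnd : (s :: C).Nodup := hxs.nodup_iff.1 hx0nd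
        have hCnd : C.Nodup := (List.nodup_cons.1 hsCnd).2
        have hsC : s ∉ C := (List.nodup_cons.1 hsCnd).1
        obtain ⟨a, ha⟩ : ∃ a, x0.getLast? = some a := by
          have : x0 ≠ [] := by rintro rfl; simp at hx0len; omega
          exact ⟨_, List.getLast?_eq_getLast_of_ne_nil this⟩
        obtain ⟨b, hb⟩ : ∃ b, z0.head? = some b := by
          cases z0 with
          | nil => simp at hz0len; omega
          | cons b _ => exact ⟨b, rfl⟩
        obtain ⟨mid, hmid, hpar, havoid⟩ := exists_mid C hCnd (by omega)
          (par x0 + cnt s C + (C.length : ZMod 2)) a b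
        have hmidlen : mid.length = C.length := hmid.length_eq
        have hmne : mid ≠ [] := by
          intro h; rw [h] at hmidlen; simp at hmidlen; omega
        have hsmid : s ∉ mid := fun h => hsC (hmid.subset h)
        have hev1 : Ev x0 (mid ++ [s]) := by
          refine ⟨?_, ?_⟩
          · exact hxs.trans ((hmid.symm.cons s).trans (List.perm_append_singleton s mid).symm)
          · rw [par_rotate hsmid, par_cons, hpar, cnt_perm s hmid, hmidlen]
            linear_combination (-(cnt s C) - (C.length : ZMod 2)) * two0
        have hlmid : l ∉ mid := by
          intro h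
          exact hlx0 (hxs.symm.subset (List.mem_cons_of_mem _ (hmid.subset h)))
        have hev2 : Ev (l :: mid) z0 := by
          have p1 : (s :: l :: mid).Perm (s :: z0) := by
            have q1 : (s :: z0).Perm (x0 ++ [l]) := hev.1.symm
            have q2 : (x0 ++ [l]).Perm (l :: x0) := List.perm_append_singleton l x0
            have q3 : (l :: x0).Perm (l :: s :: mid) := (hxs.trans (hmid.symm.cons s)).cons l
            exact (List.Perm.swap l s mid).trans (q3.symm.trans (q2.symm.trans q1.symm))
          have p2 : par (s :: l :: mid) = par (s :: z0) := by
            have e1 : par (x0 ++ [l]) = par (l :: x0) + (x0.length : ZMod 2) := par_rotate hlx0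
            have e2 : par (l :: x0) = par (l :: (mid ++ [s])) := (hev1.cons l).2
            have e3 : par ((l :: mid) ++ [s]) = par (s :: l :: mid) + ((l :: mid).length : ZMod 2) :=
              par_rotate (by simp [hsl, hsmid])
            have e4 : (l :: mid) ++ [s] = l :: (mid ++ [s]) := rfl
            rw [← hev.2, e1, e2, ← e4, e3, hx0len, List.length_cons, hmidlen, ← hClen]
            push_cast
            linear_combination (-(C.length : ZMod 2) - 1) * two0
          exact Ev.of_cons ⟨p1, p2⟩
        refine ⟨l :: (mid ++ [s]), ?_, ?_⟩
        · refine (ih x0 (mid ++ [s]) hx0len hx0nd hev1 ?_).lift l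
          by_cases h3 : N ≤ 3
          · exact Or.inl h3
          · right; left
            have := (havoid (by omega)).1
            rw [ha]
            intro h
            apply this
            rw [← h]
            cases mid with
            | nil => exact absurd rfl hmne
            | cons c mid => rfl
        · have hnd2 : (l :: mid).Nodup := by
            refine List.nodup_cons.2 ⟨hlmid, hmid.nodup_iff.2 hCnd⟩
          have hl2 : (l :: mid).length = N := by simp [hmidlen]; omega
          refine (ih (l :: mid) z0 hl2 hnd2 hev2 ?_).lift s
          by_cases h3 : N ≤ 3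
          · exact Or.inl h3
          · right; left
            have := (havoid (by omega)).2
            rw [hb]
            intro h
            apply this
            rw [h]
            cases mid with
            | nil => exact absurd rfl hmne
            | cons c mid => simp [List.getLast?_cons_cons]
      rcases hc with h | h | h
      · omega
      · exact key x z hx hnd hev h
      · have hz : z.length = N + 1 := by rw [← hev.1.length_eq]; exact hx
        exact (key z x hz (hev.1.nodup_iff.1 hnd) hev.symm (Ne.symm h)).symm

end Pool.Agent.V5helper11.TypeB
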