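import Mathlib
import Pool.Agent.V5helper11.TypeB.TwoMain

/-! The recursive tree of strips. -/

namespace Pool.Agent.V5helper11.TypeB

set_option linter.unusedSectionVars false

variable {α : Type*} [LinearOrder α]

/-- rotate the last element to the front -/
def rr (Z : List α) : List α := Z.getLast?.toList ++ Z.dropLast

@[simp] lemma rr_nil : rr ([] : List α) = [] := rfl

@[simp] lemma rr_concat (Z : List α) (o : α) : rr (Z ++ [o]) = o :: Z := by
  simp [rr]

lemma strip_rr (Z : List α) : Strip Z (rr Z) := by
  rcases List.eq_nil_or_concat Z with h | ⟨Z', o, h⟩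
  · subst h; exact Strip.nil
  · have h' : Z = Z' ++ [o] := by simpa using h
    subst h'
    rw [rr_concat]
    exact Strip.rot Z' o

/-- labels of the subtrees -/
def V1 : List α → List α
  | _ :: i :: R => R.take 1 ++ i :: R.drop 1
  | _ => []

/-- labels of the second subtree -/
def th : List α → List α
  | a :: b :: R => if Even R.length then b :: a :: R else R.take 1 ++ a :: b :: R.drop 1
  | R => R

/-- target of the first strip -/
def ord (Z : List α) : List α → List α
  | [] => rr Z
  | [o] => o :: Z
  | o :: i :: R => i :: (Z ++ o :: R)

/-- final stack -/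
def S : ℕ → List α → List α
  | 0, _ => []
  | m + 1, V => S m (th (V1 V)) ++ V.take 1

/-- displacement -/
def D : ℕ → List α → α → Bool
  | 0, _ => fun _ => false
  | _ + 1, [] => fun _ => false
  | m + 1, o :: R => fun d =>
      xor (D m (V1 (o :: R)) d) (xor (decide (d = o)) (D m (th (V1 (o :: R))) d))

lemma th_cons (a b : α) (R : List α) : th (a :: b :: R) =
    if Even R.length then b :: a :: R else R.take 1 ++ a :: b :: R.drop 1 := rfl

lemma V1_perm (o : α) (R : List α) : (V1 (o :: R)).Perm R := by
  match R with
  | [] => exact List.Perm.refl _
  | [i] => exact List.Perm.refl _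
  | i :: r :: R => exact List.Perm.swap _ _ _

lemma th_perm (V : List α) : (th V).Perm V := by
  match V with
  | [] => exact List.Perm.refl _
  | [a] => exact List.Perm.refl _
  | a :: b :: R =>
    rw [th_cons]
    split_ifs with h
    · exact List.Perm.swap _ _ _
    · cases R with
      | nil => simp at h
      | cons c R =>
        show (c :: a :: b :: R).Perm (a :: b :: c :: R)
        exact (List.Perm.swap a c (b :: R)).trans ((List.Perm.swap b c R).cons a)

lemma S_perm (m : ℕ) : ∀ V : List α, V.length = m → (S m V).Perm V := by
  induction m with
  | zero =>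
    intro V hV
    have : V = [] := List.length_eq_zero_iff.1 hV
    subst this
    exact List.Perm.refl _
  | succ m ih =>
    intro V hV
    match V, hV with
    | o :: R, hV =>
      have h1 : (th (V1 (o :: R))).Perm R := (th_perm _).trans (V1_perm o R)
      have h2 : (th (V1 (o :: R))).length = m := by
        rw [h1.length_eq]; simpa using hV
      show (S m (th (V1 (o :: R))) ++ [o]).Perm (o :: R)
      exact (List.perm_append_singleton o _).trans (((ih _ h2).trans h1).cons o)

lemma par_th {V : List α} (hV : V.Nodup) (h2 : 2 ≤ V.length) :
    par (th V) = par V + ((V.length : ZMod 2) + 1) := by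
  match V, hV, h2 with
  | a :: b :: R, hV, _ =>
    have hab : a ≠ b := by simp at hV; tauto
    rw [th_cons]
    split_ifs with h
    · obtain ⟨k, hk⟩ := h
      rw [par_swap hab R, List.length_cons, List.length_cons, hk]
      push_cast
      linear_combination (-(k : ZMod 2) - 2) * two0
    · cases R with
      | nil => simp at h
      | cons c R =>
        have hac : a ≠ c := by simp at hV; tauto
        have hbc : b ≠ c := by simp at hV; tauto
        show par (c :: a :: b :: R) = _
        have h' : Odd (c :: R).length := by
          rcases Nat.even_or_odd (c :: R).length with h'' | h''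
          · exact absurd h'' h
          · exact h''
        obtain ⟨k, hk⟩ := h'
        rw [par_swap (Ne.symm hac) (b :: R), par_cons a (c :: b :: R), par_swap (Ne.symm hbc) R,
          par_cons a (b :: c :: R), cnt_perm a (List.Perm.swap b c R), List.length_cons,
          List.length_cons, hk]
        push_cast
        linear_combination (-(k : ZMod 2) - 1) * two0

lemma par_S_aux (m : ℕ) : ∀ V : List α, V.Nodup → V.length = m → 2 ≤ m →
    par (S m V) = par V + 1 := by
  induction m with
  | zero => intro V _ _ h; omega
  | succ m ih =>
    intro V hnd hV h2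
    match V, hnd, hV with
    | [], hnd, hV => simp at hV
    | [a], hnd, hV => simp at hV; omega
    | [o, i], hnd, hV =>
      have hoi : o ≠ i := by simp at hnd; exact hnd
      have hm : m = 1 := by simpa using hV.symm
      subst hm
      show par [i, o] = par [o, i] + 1
      rw [par_swap hoi []]
      linear_combination -two0
    | o :: i :: r :: R, hnd, hV =>
      have hlen : (r :: i :: R).length = m := by simp at hV ⊢; omega
      have hm2 : 2 ≤ m := by rw [← hlen]; simp
      have hir : i ≠ r := by simp at hnd; tauto
      have hndU : (r :: i :: R).Nodup := by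
        have h3 : (i :: r :: R).Nodup := (List.nodup_cons.1 hnd).2
        exact (List.Perm.swap i r R).nodup_iff.2 h3
      have hoU : o ∉ (i :: r :: R) := (List.nodup_cons.1 hnd).1
      have e0 : S (m + 1) (o :: i :: r :: R) = S m (th (r :: i :: R)) ++ [o] := rfl
      have pth : (th (r :: i :: R)).Perm (r :: i :: R) := th_perm _
      have hlen' : (th (r :: i :: R)).length = m := by rw [pth.length_eq]; exact hlen
      have pS : (S m (th (r :: i :: R))).Perm (r :: i :: R) := (S_perm m _ hlen').trans pth
      have hoS : o ∉ S m (th (r :: i :: R)) := by
        intro h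
        have h4 := pS.subset h
        apply hoU
        simp only [List.mem_cons] at h4 ⊢
        tauto
      have e1 := ih (th (r :: i :: R)) (pth.nodup_iff.2 hndU) hlen' hm2
      have e2 := par_th hndU (by rw [hlen]; exact hm2)
      rw [e0, par_rotate hoS, par_cons, cnt_perm o (pS.trans (List.Perm.swap i r R)), e1, e2,
        pS.length_eq, hlen, par_swap (Ne.symm hir) R, par_cons o]
      linear_combination ((m : ZMod 2) + 1) * two0

/-- the strips used inside the tree -/
lemma strip_th (m : ℕ) (V Z : List α) (hV : V.length = m) (hm : 1 ≤ m) (hnd : (Z ++ V).Nodup) :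
    Strip (Z ++ S m V) (ord Z (th V)) := by
  rw [List.nodup_append] at hnd
  obtain ⟨hZ, hVn, hdis⟩ := hnd
  match V, hV, hVn, hdis with
  | [], hV, _, _ => simp at hV; omega
  | [a], hV, _, _ =>
    have : m = 1 := by simpa using hV.symm
    subst this
    show Strip (Z ++ ([] ++ [a])) (a :: Z)
    simpa using Strip.rot Z a
  | [a, b], hV, _, _ =>
    have : m = 2 := by simpa using hV.symm
    subst this
    show Strip (Z ++ [b, a]) (a :: (Z ++ [b]))
    simpa using Strip.rot (Z ++ [b]) a
  | o :: i :: r :: R, hV, hVn, hdis =>
    obtain ⟨m, rfl⟩ : ∃ m', m = m' + 1 := ⟨m - 1, by omega⟩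
    have hlen : (r :: i :: R).length = m := by simp at hV ⊢; omega
    have hm2 : 2 ≤ m := by rw [← hlen]; simp
    have hir : i ≠ r := by simp at hVn; tauto
    have hndU' : (i :: r :: R).Nodup := (List.nodup_cons.1 hVn).2
    have hndU : (r :: i :: R).Nodup := by
      exact (List.Perm.swap i r R).nodup_iff.2 hndU'
    have hoU : o ∉ (i :: r :: R) := (List.nodup_cons.1 hVn).1
    have pth : (th (r :: i :: R)).Perm (r :: i :: R) := th_perm _
    have hlen' : (th (r :: i :: R)).length = m := by rw [pth.length_eq]; exact hlen
    have pS : (S m (th (r :: i :: R))).Perm (r :: i :: R) := (S_perm m _ hlen').trans pth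
    have e1 := par_S_aux m (th (r :: i :: R)) (pth.nodup_iff.2 hndU) hlen' hm2
    have e2 := par_th hndU (by rw [hlen]; exact hm2)
    have e3 : par (S m (th (r :: i :: R))) = par (i :: r :: R) + ((m : ZMod 2) + 1) := by
      rw [e1, e2, hlen, par_swap (Ne.symm hir) R]
      linear_combination two0
    have hX : Z ++ S (m + 1) (o :: i :: r :: R) = (Z ++ S m (th (r :: i :: R))) ++ [o] := by
      show Z ++ (S m (th (r :: i :: R)) ++ [o]) = _
      simp
    have hdS : ∀ z ∈ Z, ∀ x ∈ S m (th (r :: i :: R)), z ≠ x := by
      intro z hz x hx
      have h4 := pS.subset hx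
      exact hdis z hz x (by simp only [List.mem_cons] at h4 ⊢; tauto)
    have hndX : (Z ++ S m (th (r :: i :: R))).Nodup :=
      List.nodup_append.2 ⟨hZ, pS.nodup_iff.2 hndU, hdS⟩
    rw [hX]
    -- last element of `S`
    obtain ⟨m', rfl⟩ : ∃ m', m = m' + 1 := ⟨m - 1, by omega⟩
    have hSlast : (Z ++ S (m' + 1) (th (r :: i :: R))).getLast? = (th (r :: i :: R)).head? := by
      have hh : S (m' + 1) (th (r :: i :: R)) =
        S m' (th (V1 (th (r :: i :: R)))) ++ (th (r :: i :: R)).take 1 := rfl
      rw [hh]
      cases hc : th (r :: i :: R) with
      | nil => rw [hc] at hlen'; simp at hlen'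
      | cons c W =>
        simp only [List.take_succ_cons, List.take_zero, List.head?_cons]
        rw [← List.append_assoc]
        exact List.getLast?_concat
    by_cases hE : Even (R.length + 1)
    · -- length of V even
      have eth : th (o :: i :: r :: R) = i :: o :: r :: R := by
        rw [th_cons, if_pos]; simpa using hE
      rw [eth]
      show Strip _ (o :: (Z ++ i :: r :: R))
      refine (two_main _ _ _ rfl hndX ?_ ?_).lift o
      · refine Ev.append_left Z ⟨pS.trans (List.Perm.swap i r R), ?_⟩
        rw [e3]
        obtain ⟨k, hk⟩ := hE
        have hm3 : m' + 1 = k + k + 1 := by rw [← hlen]; simp; omega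
        rw [hm3]; push_cast
        linear_combination ((k : ZMod 2) + 1) * two0
      · right; left
        rw [hSlast]
        cases R with
        | nil => simp at hE
        | cons c R =>
          have eth2 : th (r :: i :: c :: R) = c :: r :: i :: R := by
            rw [th_cons, if_neg]
            · rfl
            · simp only [List.length_cons] at hE ⊢
              intro h
              rw [Nat.even_add_one] at hE
              exact hE h
          rw [eth2]
          cases Z with
          | nil =>
            simp only [List.nil_append, List.head?_cons, ne_eq, Option.some.injEq]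
            simp at hndU'; tauto
          | cons z Z =>
            simp only [List.cons_append, List.head?_cons, ne_eq, Option.some.injEq]
            exact hdis z (by simp) c (by simp)
    · have eth : th (o :: i :: r :: R) = r :: o :: i :: R := by
        rw [th_cons, if_neg]
        · rfl
        · simpa using hE
      rw [eth]
      show Strip _ (o :: (Z ++ r :: i :: R))
      refine (two_main _ _ _ rfl hndX ?_ ?_).lift o
      · refine Ev.append_left Z ⟨pS, ?_⟩
        rw [e3, par_swap (Ne.symm hir) R]
        have hO : Even R.length := by
          by_contra h; exact hE (Nat.even_add_one.2 h)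
        obtain ⟨k, hk⟩ := hO
        have hm3 : m' + 1 = k + k + 2 := by rw [← hlen]; simp; omega
        rw [hm3]; push_cast
        linear_combination ((k : ZMod 2) + 1) * two0
      · right; left
        rw [hSlast]
        have hO : Even R.length := by
          by_contra h; exact hE (Nat.even_add_one.2 h)
        have eth2 : th (r :: i :: R) = i :: r :: R := by
          rw [th_cons, if_pos hO]
        rw [eth2]
        cases Z with
        | nil =>
          simp only [List.nil_append, List.head?_cons, ne_eq, Option.some.injEq]
          exact Ne.symm hir
        | cons z Z =>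
          simp only [List.cons_append, List.head?_cons, ne_eq, Option.some.injEq]
          exact hdis z (by simp) i (by simp)

end Pool.Agent.V5helper11.TypeB
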