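import Mathlib
import Pool.Agent.V5helper11.TypeB.Tree

/-! The recursion over the vertices of the cube. -/

namespace Pool.Agent.V5helper11.TypeB

set_option linter.unusedSectionVars false

variable {α : Type*} [LinearOrder α]

/-- faces covered by a subtree -/
def cov (v : α → Bool) (L Z : List α) : Set (α → Option Bool) :=
  {f | ∀ d, d ∈ L ∨ f d = some (v d) ∨ (f d = none ∧ d ∈ Z)}

/-- a subtree on the labels `L` with open labels `Z` above it -/
def TP (Z t : List α) (E : α → Bool) (s L : List α) : Prop :=
  (∀ d, E d = true → d ∈ L) ∧ s.Perm L ∧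
  ∀ X, Strip X t → ∀ (Y : List α) (v : α → Bool) (k : ℕ),
    k + (L.length + Z.length + 1) = 3 ^ L.length * 2 ^ Z.length →
    Reach (v, X ++ Y) (fun d => xor (v d) (E d), rr Z ++ s ++ Y) k (cov v L Z)

lemma rr_perm (Z : List α) : (rr Z).Perm Z := by
  rcases List.eq_nil_or_concat Z with h | ⟨Z', o, h⟩
  · subst h; exact List.Perm.refl _
  · have h' : Z = Z' ++ [o] := by simpa using h
    subst h'
    rw [rr_concat]
    exact (List.perm_append_singleton o Z').symm

lemma TP.base (Z : List α) : TP Z (rr Z) (fun _ => false) [] [] := by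
  refine ⟨by simp, List.Perm.refl _, ?_⟩
  intro X hX Y v k hk
  have hlen : X.length = Z.length := by
    rw [← hX.1.length_eq, (rr_perm Z).length_eq]
  have h := hX.2 v [] Y k (by rw [hlen]; simpa using hk)
  simp only [List.nil_append] at h
  have h2 : Reach (v, X ++ Y) (fun d => xor (v d) false, rr Z ++ [] ++ Y) k
      {f | ∃ A : List α, A ⊆ X ∧ f = face v A} := by
    simpa using h
  refine h2.mono ?_
  intro f hf
  refine ⟨X.filter (fun d => decide (f d = none)), ?_, ?_⟩
  · intro d hd
    exact (List.mem_filter.1 hd).1
  · funext d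
    have hfd := hf d
    simp only [List.not_mem_nil, false_or] at hfd
    rcases hfd with h3 | ⟨h3, h4⟩
    · have : d ∉ X.filter (fun d => decide (f d = none)) := by
        simp [h3]
      simp [face, this, h3]
    · have hdX : d ∈ X := by
        have := (rr_perm Z).symm.subset h4
        exact hX.1.subset this
      have : d ∈ X.filter (fun d => decide (f d = none)) := by
        simp [h3, hdX]
      simp [face, this, h3]

lemma TP.congr {Z t : List α} {E : α → Bool} {s L L' : List α} (h : TP Z t E s L)
    (hL : L.Perm L') : TP Z t E s L' := by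
  refine ⟨fun d hd => hL.subset (h.1 d hd), h.2.1.trans hL, ?_⟩
  intro X hX Y v k hk
  rw [← hL.length_eq] at hk
  refine (h.2.2 X hX Y v k hk).mono ?_
  intro f hf d
  rcases hf d with h1 | h1
  · exact Or.inl (hL.symm.subset h1)
  · exact Or.inr h1

lemma pow_ge (m h : ℕ) : ∃ k, k + (m + h + 1) = 3 ^ m * 2 ^ h := by
  have h1 : m + h + 1 ≤ 3 ^ m * 2 ^ h := by
    have a1 : 2 ^ (m + h) ≤ 3 ^ m * 2 ^ h := by
      rw [pow_add]
      exact Nat.mul_le_mul_right _ (Nat.pow_le_pow_left (by norm_num) m)
    have a2 : m + h + 1 ≤ 2 ^ (m + h) := Nat.lt_two_pow_self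
    omega
  exact ⟨3 ^ m * 2 ^ h - (m + h + 1), by omega⟩

lemma TP.step {Z t t2 : List α} {o : α} {E1 E2 : α → Bool} {s1 s2 L : List α} (ho : o ∉ L)
    (h1 : TP (Z ++ [o]) t E1 s1 L) (h2 : TP Z t2 E2 s2 L) (hS : Strip (Z ++ s1) t2)
    (hZL : ∀ z ∈ Z, z ∉ L) (hZo : o ∉ Z) :
    TP Z t (fun d => xor (E1 d) (xor (decide (d = o)) (E2 d))) (s2 ++ [o]) (o :: L) := by
  refine ⟨?_, ?_, ?_⟩
  · intro d hd
    by_cases h3 : d = o
    · simp [h3]
    · simp only [h3, decide_false, Bool.false_xor] at hd
      rcases Bool.eq_false_or_eq_true (E1 d) with h4 | h4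
      · exact List.mem_cons_of_mem _ (h1.1 d h4)
      · rw [h4, Bool.false_xor] at hd
        exact List.mem_cons_of_mem _ (h2.1 d hd)
  · exact (List.perm_append_singleton o s2).trans (h2.2.1.cons o)
  · intro X hX Y v k hk
    obtain ⟨k1, hk1⟩ := pow_ge L.length (Z ++ [o]).length
    obtain ⟨k2, hk2⟩ := pow_ge L.length Z.length
    set v1 : α → Bool := fun d => xor (v d) (E1 d) with hv1
    have r1 := h1.2.2 X hX Y v k1 hk1
    rw [rr_concat] at r1
    have r1' : Reach (v, X ++ Y) (v1, o :: (Z ++ s1 ++ Y)) k1 (cov v L (Z ++ [o])) := by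
      simpa using r1
    set v2 : α → Bool := Function.update v1 o (!v1 o) with hv2
    have r2 : Reach (v1, o :: (Z ++ s1 ++ Y)) (v2, o :: (Z ++ s1 ++ Y)) 1 ∅ :=
      Reach.single (Adj.flip v1 o _)
    have r3 : Reach (v2, [] ++ o :: (Z ++ s1) ++ Y) (v2, [] ++ (Z ++ s1) ++ o :: Y)
      (Z ++ s1).length ∅ := moveBack v2 o (Z ++ s1) [] Y
    have r3' : Reach (v2, o :: (Z ++ s1 ++ Y)) (v2, (Z ++ s1) ++ o :: Y) (Z ++ s1).length ∅ := by
      simpa using r3
    have r4 := h2.2.2 (Z ++ s1) hS (o :: Y) v2 k2 hk2
    have r := (r1'.trans (r2.trans r3')).trans r4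
    have hkk : k1 + (1 + (Z ++ s1).length) + k2 = k := by
      have e1 : s1.length = L.length := h1.2.1.length_eq
      have e0 : (Z ++ [o]).length = Z.length + 1 := by simp
      have e3 : (Z ++ s1).length = Z.length + L.length := by rw [List.length_append, e1]
      rw [e0] at hk1
      rw [List.length_cons] at hk
      rw [e3]
      have e2 : 3 ^ (L.length + 1) * 2 ^ Z.length = 3 ^ L.length * 2 ^ (Z.length + 1)
        + 3 ^ L.length * 2 ^ Z.length := by ring
      rw [e2] at hk
      omega
    rw [hkk] at r
    have hend : ((fun d => xor (v2 d) (E2 d)), rr Z ++ s2 ++ o :: Y) =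
        (((fun d => xor (v d) (xor (E1 d) (xor (decide (d = o)) (E2 d)))),
          rr Z ++ (s2 ++ [o]) ++ Y) : Flag α) := by
      refine Prod.ext ?_ (by simp)
      funext d
      by_cases hd : d = o
      · subst hd
        simp only [hv2, hv1, Function.update_self, decide_true]
        cases v d <;> cases E1 d <;> cases E2 d <;> rfl
      · simp only [hv2, hv1, Function.update_of_ne hd, hd, decide_false, Bool.false_xor]
        cases v d <;> cases E1 d <;> cases E2 d <;> rfl
    rw [hend] at r
    refine r.mono ?_
    intro f hf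
    have hE1o : E1 o = false := by
      rcases Bool.eq_false_or_eq_true (E1 o) with h4 | h4
      · exact absurd (h1.1 o h4) ho
      · exact h4
    by_cases hfo : f o = some (!v o)
    · right
      intro d
      by_cases hdL : d ∈ L
      · exact Or.inl hdL
      · right
        by_cases hdo : d = o
        · subst hdo
          left
          simp [hv2, hv1, hE1o, hfo]
        · have hE1d : E1 d = false := by
            rcases Bool.eq_false_or_eq_true (E1 d) with h4 | h4
            · exact absurd (h1.1 d h4) hdL
            · exact h4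
          rcases hf d with h5 | h5 | h5
          · exfalso
            simp only [List.mem_cons] at h5
            rcases h5 with h5 | h5
            · exact hdo h5
            · exact hdL h5
          · left
            simp [hv2, hv1, hE1d, h5, Function.update_of_ne hdo]
          · right; exact h5
    · left; left
      intro d
      rcases hf d with h5 | h5 | h5
      · simp only [List.mem_cons] at h5
        rcases h5 with h5 | h5
        · subst h5
          right
          cases hfd : f d with
          | none => right; exact ⟨rfl, by simp⟩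
          | some b =>
            left
            rw [hfd] at hfo
            have : b ≠ !v d := fun h => hfo (by rw [h])
            cases b <;> cases hvd : v d <;> simp_all
        · exact Or.inl h5
      · exact Or.inr (Or.inl h5)
      · exact Or.inr (Or.inr ⟨h5.1, by simp [h5.2]⟩)

lemma ord_V1 (Z : List α) (o : α) (R : List α) : ord (Z ++ [o]) (V1 (o :: R)) = ord Z (o :: R) := by
  match R with
  | [] => simp [V1, ord]
  | [i] => simp [V1, ord]
  | i :: r :: R => simp [V1, ord]

theorem T_main (m : ℕ) : ∀ V Z : List α, V.length = m → (Z ++ V).Nodup →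
    TP Z (ord Z V) (D m V) (S m V) V := by
  induction m with
  | zero =>
    intro V Z hV hnd
    have : V = [] := List.length_eq_zero_iff.1 hV
    subst this
    exact TP.base Z
  | succ m ih =>
    intro V Z hV hnd
    match V, hV, hnd with
    | o :: R, hV, hnd =>
      rw [List.nodup_append] at hnd
      obtain ⟨hZ, hVn, hdis⟩ := hnd
      have hoR : o ∉ R := (List.nodup_cons.1 hVn).1
      have hR : R.Nodup := (List.nodup_cons.1 hVn).2
      have pU : (V1 (o :: R)).Perm R := V1_perm o R
      have pT : (th (V1 (o :: R))).Perm (V1 (o :: R)) := th_perm _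
      have hUlen : (V1 (o :: R)).length = m := by rw [pU.length_eq]; simpa using hV
      have hTlen : (th (V1 (o :: R))).length = m := by rw [pT.length_eq]; exact hUlen
      have hoU : o ∉ V1 (o :: R) := fun h => hoR (pU.subset h)
      have hoZ : o ∉ Z := fun h => hdis o h o (by simp) rfl
      have hZU : ∀ z ∈ Z, z ∉ V1 (o :: R) := fun z hz h =>
        hdis z hz z (List.mem_cons_of_mem _ (pU.subset h)) rfl
      have hnd1 : ((Z ++ [o]) ++ V1 (o :: R)).Nodup := by
        refine List.nodup_append.2 ⟨?_, pU.nodup_iff.2 hR, ?_⟩
        · refine List.nodup_append.2 ⟨hZ, by simp, ?_⟩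
          intro z hz b hb
          simp only [List.mem_singleton] at hb
          subst hb
          exact hdis z hz b (by simp)
        · intro z hz b hb hzb
          subst hzb
          simp only [List.mem_append, List.mem_singleton] at hz
          rcases hz with hz | hz
          · exact hZU z hz hb
          · subst hz; exact hoU hb
      have hnd2 : (Z ++ V1 (o :: R)).Nodup := by
        refine List.nodup_append.2 ⟨hZ, pU.nodup_iff.2 hR, ?_⟩
        intro z hz b hb hzb
        subst hzb
        exact hZU z hz hb
      have hnd3 : (Z ++ th (V1 (o :: R))).Nodup :=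
        (pT.append_left Z).nodup_iff.2 hnd2
      have a1 := ih (V1 (o :: R)) (Z ++ [o]) hUlen hnd1
      have a2 := (ih (th (V1 (o :: R))) Z hTlen hnd3).congr pT
      have a3 : Strip (Z ++ S m (V1 (o :: R))) (ord Z (th (V1 (o :: R)))) := by
        rcases Nat.eq_zero_or_pos m with hm | hm
        · subst hm
          have : V1 (o :: R) = [] := List.length_eq_zero_iff.1 hUlen
          rw [this]
          show Strip (Z ++ []) (rr Z)
          rw [List.append_nil]
          exact strip_rr Z
        · exact strip_th m _ Z hUlen hm hnd2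
      rw [ord_V1] at a1
      have a4 := TP.step hoU a1 a2 a3 hZU hoZ
      exact a4.congr (pU.cons o)

/-- closing a cycle -/
theorem close_up {p : α} {tA tB sA sB L : List α} {EA EB : α → Bool} (hp : p ∉ L)
    (hall : ∀ d, d ∈ p :: L)
    (hA : TP [p] tA EA sA L) (hB : TP [] tB EB sB L) (hE : EA = EB)
    (h1 : Strip sA tB) (h2 : Strip (p :: sB) tA) (v : α → Bool) :
    Reach (v, p :: sB) (v, p :: sB) (3 ^ (L.length + 1) - 1) Set.univ := by
  have h3 : TP [] tA (fun d => xor (EA d) (xor (decide (d = p)) (EB d))) (sB ++ [p]) (p :: L) :=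
    TP.step (Z := []) hp hA hB h1 (by simp) (by simp)
  obtain ⟨k, hk⟩ := pow_ge (L.length + 1) 0
  have r1 := h3.2.2 (p :: sB) h2 [] v k (by simpa using hk)
  have e1 : (fun d => xor (v d) (xor (EA d) (xor (decide (d = p)) (EB d)))) =
      Function.update v p (!v p) := by
    funext d
    subst hE
    by_cases hd : d = p
    · subst hd
      simp only [Function.update_self, decide_true]
      cases v d <;> cases EA d <;> rfl
    · simp only [Function.update_of_ne hd, hd, decide_false]
      cases v d <;> cases EA d <;> rfl
  rw [e1] at r1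
  have r2 := moveFront (Function.update v p (!v p)) p sB [] []
  have r3 : Reach (Function.update v p (!v p), p :: sB) (v, p :: sB) 1 ∅ := by
    refine Reach.single ?_
    have := (Adj.flip v p sB).symm
    exact this
  have r1' : Reach (v, p :: sB) (Function.update v p (!v p), sB ++ [p]) k Set.univ := by
    have : Reach (v, p :: sB) (Function.update v p (!v p), sB ++ [p]) k
        (cov v (p :: L) []) := by simpa using r1
    exact this.mono (fun f _ d => Or.inl (hall d))
  have r2' : Reach (Function.update v p (!v p), sB ++ [p]) (Function.update v p (!v p), p :: sB)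
    sB.length ∅ := by simpa using r2
  have r := (r1'.trans r2').trans r3
  have hlen : sB.length = L.length := hB.2.1.length_eq
  have : k + sB.length + 1 = 3 ^ (L.length + 1) - 1 := by
    rw [hlen]
    have : k + (L.length + 1 + 0 + 1) = 3 ^ (L.length + 1) := by simpa using hk
    omega
  rw [this] at r
  exact r.mono (by simp)

end Pool.Agent.V5helper11.TypeB
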