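import Mathlib
import Pool.Agent.V5helper11.TypeB.Top

/-! Closed walks on the flags of the cube of dimension at least six. -/

namespace Pool.Agent.V5helper11.TypeB

set_option linter.unusedSectionVars false
set_option maxHeartbeats 4000000

variable {α : Type*} [LinearOrder α]

/-- displacement of a subtree -/
lemma D_form (m : ℕ) : ∀ V : List α, V.length = m →
    (Even m → ∀ o R, V = o :: R → D m V = fun d => decide (d = o)) ∧
    (Odd m → ∀ o i r R, V = o :: i :: r :: R →
      D m V = fun d => xor (decide (d = o)) (xor (decide (d = i)) (decide (d = r)))) := by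
  induction m with
  | zero =>
    intro V hV
    refine ⟨?_, ?_⟩
    · rintro _ o R rfl; simp at hV
    · rintro _ o i r R rfl; simp at hV
  | succ m ih =>
    intro V hV
    refine ⟨?_, ?_⟩
    · rintro hE o R rfl
      have hO : Odd m := by
        rcases Nat.even_or_odd m with h | h
        · exact absurd hE (by rw [Nat.even_add_one]; simpa using h)
        · exact h
      match R, hV with
      | [], hV => simp at hV; subst hV; simp at hO
      | [i], hV =>
        simp at hV; subst hV
        funext d
        show xor (D 1 [i] d) (xor (decide (d = o)) (D 1 [i] d)) = decide (d = o)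
        cases D 1 [i] d <;> cases decide (d = o) <;> rfl
      | [i, r], hV => simp at hV; subst hV; exact absurd hO (by decide)
      | i :: r :: c :: R, hV =>
        have hR : ¬ Even (c :: R).length := by
          intro h
          simp only [List.length_cons] at hV h
          obtain ⟨k, hk⟩ := h
          obtain ⟨l, hl⟩ := hO
          omega
        have e1 : V1 (o :: i :: r :: c :: R) = r :: i :: c :: R := rfl
        have e2 : th (r :: i :: c :: R) = c :: r :: i :: R := by
          rw [th_cons, if_neg hR]; rfl
        have hl1 : (r :: i :: c :: R).length = m := by simp at hV ⊢; omega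
        have hl2 : (c :: r :: i :: R).length = m := by simp at hV ⊢; omega
        have h1 := (ih _ hl1).2 hO r i c R rfl
        have h2 := (ih _ hl2).2 hO c r i R rfl
        funext d
        show xor (D m (V1 (o :: i :: r :: c :: R)) d) (xor (decide (d = o))
          (D m (th (V1 (o :: i :: r :: c :: R))) d)) = decide (d = o)
        rw [e1, e2, h1, h2]
        beta_reduce
        cases decide (d = r) <;> cases decide (d = i) <;> cases decide (d = c) <;>
          cases decide (d = o) <;> rfl
    · rintro hO o i r R rfl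
      have hE : Even m := by
        rcases Nat.even_or_odd m with h | h
        · exact h
        · exfalso
          obtain ⟨k, hk⟩ := hO
          obtain ⟨l, hl⟩ := h
          omega
      have hR : Even R.length := by
        simp only [List.length_cons] at hV
        obtain ⟨k, hk⟩ := hE
        rcases Nat.even_or_odd R.length with h | h
        · exact h
        · obtain ⟨l, hl⟩ := h
          omega
      have e1 : V1 (o :: i :: r :: R) = r :: i :: R := rfl
      have e2 : th (r :: i :: R) = i :: r :: R := by
        rw [th_cons, if_pos hR]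
      have hl1 : (r :: i :: R).length = m := by simp at hV ⊢; omega
      have hl2 : (i :: r :: R).length = m := by simp at hV ⊢; omega
      have h1 := (ih _ hl1).1 hE r (i :: R) rfl
      have h2 := (ih _ hl2).1 hE i (r :: R) rfl
      funext d
      show xor (D m (V1 (o :: i :: r :: R)) d) (xor (decide (d = o))
          (D m (th (V1 (o :: i :: r :: R))) d)) = _
      rw [e1, e2, h1, h2]
      beta_reduce
      cases decide (d = r) <;> cases decide (d = i) <;>
          cases decide (d = o) <;> rfl

/-- first element of the final stack -/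
lemma head_S (m : ℕ) : ∀ V : List α, V.length = m →
    (Even m → ∀ o i R, V = o :: i :: R → (S m V).head? = some i) ∧
    (Odd m → ∀ o i r R, V = o :: i :: r :: R → (S m V).head? = some r) := by
  induction m with
  | zero =>
    intro V hV
    refine ⟨?_, ?_⟩
    · rintro _ o i R rfl; simp at hV
    · rintro _ o i r R rfl; simp at hV
  | succ m ih =>
    intro V hV
    refine ⟨?_, ?_⟩
    · rintro hE o i R rfl
      have hO : Odd m := by
        rcases Nat.even_or_odd m with h | h
        · exact absurd hE (by rw [Nat.even_add_one]; simpa using h)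
        · exact h
      match R, hV with
      | [], hV => simp at hV; subst hV; rfl
      | [r], hV => simp at hV; subst hV; exact absurd hO (by decide)
      | r :: c :: R, hV =>
        have hR : ¬ Even (c :: R).length := by
          intro h
          simp only [List.length_cons] at hV h
          obtain ⟨k, hk⟩ := h
          obtain ⟨l, hl⟩ := hO
          omega
        have e2 : th (r :: i :: c :: R) = c :: r :: i :: R := by
          rw [th_cons, if_neg hR]; rfl
        have hl2 : (c :: r :: i :: R).length = m := by simp at hV ⊢; omega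
        have h2 := (ih _ hl2).2 hO c r i R rfl
        show (S m (th (r :: i :: c :: R)) ++ [o]).head? = some i
        rw [e2, List.head?_append, h2]; rfl
    · rintro hO o i r R rfl
      have hE : Even m := by
        rcases Nat.even_or_odd m with h | h
        · exact h
        · exfalso
          obtain ⟨k, hk⟩ := hO
          obtain ⟨l, hl⟩ := h
          omega
      have hR : Even R.length := by
        simp only [List.length_cons] at hV
        obtain ⟨k, hk⟩ := hE
        rcases Nat.even_or_odd R.length with h | h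
        · exact h
        · obtain ⟨l, hl⟩ := h
          omega
      have e2 : th (r :: i :: R) = i :: r :: R := by
        rw [th_cons, if_pos hR]
      have hl2 : (i :: r :: R).length = m := by simp at hV ⊢; omega
      have h2 := (ih _ hl2).1 hE i r R rfl
      show (S m (th (r :: i :: R)) ++ [o]).head? = some r
      rw [e2, List.head?_append, h2]; rfl

/-- last element of the final stack -/
lemma last_S (m : ℕ) (o : α) (R : List α) : (S (m + 1) (o :: R)).getLast? = some o := by
  show (S m (th (V1 (o :: R))) ++ [o]).getLast? = some o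
  exact List.getLast?_concat

lemma par_swap_at (C : List α) {a b : α} (h : a ≠ b) (l : List α) :
    par (C ++ a :: b :: l) = par (C ++ b :: a :: l) + 1 := by
  induction C with
  | nil => exact par_swap h l
  | cons c C ih =>
    simp only [List.cons_append, par_cons]
    rw [ih, cnt_perm c ((List.Perm.swap b a l).append_left C)]
    ring

/-- closed walk, number of directions even -/
theorem closed_even (p a z b c c' : α) (M : List α) (hM : Even M.length)
    (hnd : (p :: a :: z :: b :: c :: c' :: M).Nodup)
    (hall : ∀ x, x ∈ p :: a :: z :: b :: c :: c' :: M) (v : α → Bool) :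
    ∃ l : List α, l.Perm (p :: a :: z :: b :: c :: c' :: M) ∧
      Reach (v, l) (v, l) (3 ^ (M.length + 6) - 1) Set.univ := by
  have hab : a ≠ b := by simp at hnd; tauto
  have haz : a ≠ z := by simp at hnd; tauto
  have hzb : z ≠ b := by simp at hnd; tauto
  have hbc : b ≠ c := by simp at hnd; tauto
  have hbc' : b ≠ c' := by simp at hnd; tauto
  have hbM : b ∉ M := by simp at hnd; tauto
  have hcc' : c ≠ c' := by simp at hnd; tauto
  have hnd' : (a :: z :: b :: c :: c' :: M).Nodup := (List.nodup_cons.1 hnd).2
  have hpL : p ∉ (a :: z :: b :: c :: c' :: M) := (List.nodup_cons.1 hnd).1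
  have hE4 : Even (M.length + 4) := by
    obtain ⟨k, hk⟩ := hM; exact ⟨k + 2, by omega⟩
  have hO5 : Odd (M.length + 5) := by
    obtain ⟨k, hk⟩ := hM; exact ⟨k + 2, by omega⟩
  -- the two label lists
  set VA := a :: z :: b :: c :: c' :: M with hVA
  set VB := z :: a :: b :: c' :: c :: M with hVB
  have pAB : VB.Perm VA := by
    rw [hVA, hVB]
    exact (List.Perm.swap a z _).trans (((List.Perm.swap c c' M).cons b).cons z |>.cons a)
  have lA : VA.length = M.length + 5 := by simp [hVA]
  have lB : VB.length = M.length + 5 := by simp [hVB]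
  have hndA : ([p] ++ VA).Nodup := hnd
  have hndB : ([] ++ VB).Nodup := pAB.nodup_iff.2 hnd'
  have tA := T_main (M.length + 5) VA [p] lA hndA
  have tB := (T_main (M.length + 5) VB [] lB hndB).congr pAB
  have hDA := (D_form (M.length + 5) VA lA).2 hO5 a z b (c :: c' :: M) rfl
  have hDB := (D_form (M.length + 5) VB lB).2 hO5 z a b (c' :: c :: M) rfl
  have hD : D (M.length + 5) VA = D (M.length + 5) VB := by
    rw [hDA, hDB]
    funext d
    cases decide (d = a) <;> cases decide (d = z) <;> cases decide (d = b) <;> rfl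
  have hEc : Even (c :: c' :: M).length := by
    obtain ⟨k, hk⟩ := hM; exact ⟨k + 1, by simp; omega⟩
  have hEc' : Even (c' :: c :: M).length := by
    obtain ⟨k, hk⟩ := hM; exact ⟨k + 1, by simp; omega⟩
  -- final stacks
  have sA : S (M.length + 5) VA = S (M.length + 4) (z :: b :: c :: c' :: M) ++ [a] := by
    show S (M.length + 4) (th (b :: z :: c :: c' :: M)) ++ [a] = _
    rw [th_cons, if_pos hEc]
  have sB : S (M.length + 5) VB = S (M.length + 4) (a :: b :: c' :: c :: M) ++ [z] := by
    show S (M.length + 4) (th (b :: a :: c' :: c :: M)) ++ [z] = _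
    rw [th_cons, if_pos hEc']
  have l1 : (z :: b :: c :: c' :: M).length = M.length + 4 := by simp
  have l2 : (a :: b :: c' :: c :: M).length = M.length + 4 := by simp
  have nd1 : (z :: b :: c :: c' :: M).Nodup := (List.nodup_cons.1 hnd').2
  have perm2 : (a :: b :: c' :: c :: M).Perm (a :: b :: c :: c' :: M) :=
    ((List.Perm.swap c c' M).cons b).cons a
  have nd2 : (a :: b :: c' :: c :: M).Nodup := by
    refine perm2.nodup_iff.2 ?_
    have : (z :: a :: b :: c :: c' :: M).Nodup := (List.Perm.swap a z _).nodup_iff.2 hnd'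
    exact (List.nodup_cons.1 this).2
  have p1 := S_perm (M.length + 4) _ l1
  have p2 := S_perm (M.length + 4) _ l2
  have q1 := par_S_aux (M.length + 4) _ nd1 l1 (by omega)
  have q2 := par_S_aux (M.length + 4) _ nd2 l2 (by omega)
  have hS1 : Strip (S (M.length + 5) VA) (ord [] VB) := by
    rw [sA]
    show Strip _ (a :: (z :: b :: c' :: c :: M))
    refine (two_main _ _ _ rfl (p1.nodup_iff.2 nd1) ⟨?_, ?_⟩ ?_).lift a
    · exact p1.trans (((List.Perm.swap c' c M).cons b).cons z)
    · rw [q1]
      have := par_swap_at [z, b] hcc' M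
      simp only [List.cons_append, List.nil_append] at this
      rw [this]
      linear_combination two0
    · right; right
      rw [(head_S _ _ l1).1 hE4 z b _ rfl]
      simp only [List.getLast?_cons_cons]
      intro h
      have : b ∈ c :: M := List.mem_of_getLast? h
      simp only [List.mem_cons] at this
      tauto
  have hS2 : Strip (p :: S (M.length + 5) VB) (ord [p] VA) := by
    rw [sB]
    show Strip ((p :: S (M.length + 4) (a :: b :: c' :: c :: M)) ++ [z])
      (z :: (p :: a :: b :: c :: c' :: M))
    have hp2 : p ∉ S (M.length + 4) (a :: b :: c' :: c :: M) := by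
      intro h
      have h' := (p2.trans perm2).subset h
      apply hpL
      exact ((List.Sublist.refl (b :: c :: c' :: M)).cons z |>.cons_cons a).subset h'
    refine (two_main _ _ _ rfl (List.nodup_cons.2 ⟨hp2, p2.nodup_iff.2 nd2⟩)
      (Ev.cons p ⟨p2.trans perm2, ?_⟩) ?_).lift z
    · rw [q2]
      have := par_swap_at [a, b] (Ne.symm hcc') M
      simp only [List.cons_append, List.nil_append] at this
      rw [this]
      linear_combination two0
    · right; left
      have : (p :: S (M.length + 4) (a :: b :: c' :: c :: M)).getLast? = some a := by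
        have h := last_S (M.length + 3) a (b :: c' :: c :: M)
        have hh : (p :: S (M.length + 4) (a :: b :: c' :: c :: M)) =
          [p] ++ S (M.length + 3 + 1) (a :: b :: c' :: c :: M) := rfl
        rw [hh, List.getLast?_append, h]; rfl
      rw [this]
      simp only [List.head?_cons, ne_eq, Option.some.injEq]
      intro h
      apply hpL; rw [h, hVA]; simp
  refine ⟨p :: S (M.length + 5) VB, ?_, ?_⟩
  · exact ((S_perm _ _ lB).trans pAB).cons p
  · have := close_up hpL hall tA tB hD hS1 hS2 v
    rw [lA] at this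
    exact this

/-- the modified subtree -/
theorem star_tree (o i r1 r2 r3 : α) (R Z : List α) (hR : Odd R.length)
    (hnd : (Z ++ (o :: i :: r1 :: r2 :: r3 :: R)).Nodup) :
    TP Z (i :: (Z ++ o :: r1 :: r2 :: r3 :: R))
      (fun d => xor (decide (d = o)) (xor (decide (d = i)) (decide (d = r3))))
      (S (R.length + 4) (r3 :: r1 :: r2 :: i :: R) ++ [o]) (o :: i :: r1 :: r2 :: r3 :: R) := by
  rw [List.nodup_append] at hnd
  obtain ⟨hZ, hVn, hdis⟩ := hnd
  have ho : o ∉ i :: r1 :: r2 :: r3 :: R := (List.nodup_cons.1 hVn).1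
  have hV' : (i :: r1 :: r2 :: r3 :: R).Nodup := (List.nodup_cons.1 hVn).2
  have pU : (r1 :: i :: r2 :: r3 :: R).Perm (i :: r1 :: r2 :: r3 :: R) := List.Perm.swap _ _ _
  have pV : (r3 :: r1 :: r2 :: i :: R).Perm (i :: r1 :: r2 :: r3 :: R) := by
    have a1 : (r3 :: r1 :: r2 :: i :: R).Perm (r1 :: r3 :: r2 :: i :: R) := List.Perm.swap _ _ _
    have a2 : (r1 :: r3 :: r2 :: i :: R).Perm (r1 :: r2 :: r3 :: i :: R) :=
      (List.Perm.swap _ _ _).cons r1
    have a3 : (r1 :: r2 :: r3 :: i :: R).Perm (r1 :: r2 :: i :: r3 :: R) :=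
      ((List.Perm.swap _ _ _).cons r2).cons r1
    have a4 : (r1 :: r2 :: i :: r3 :: R).Perm (r1 :: i :: r2 :: r3 :: R) :=
      (List.Perm.swap _ _ _).cons r1
    exact a1.trans (a2.trans (a3.trans (a4.trans pU)))
  have lU : (r1 :: i :: r2 :: r3 :: R).length = R.length + 4 := by simp
  have lV : (r3 :: r1 :: r2 :: i :: R).length = R.length + 4 := by simp
  have hoU : o ∉ r1 :: i :: r2 :: r3 :: R := fun h => ho (pU.subset h)
  have hoZ : o ∉ Z := fun h => hdis o h o (by simp) rfl
  have hZU : ∀ z ∈ Z, z ∉ r1 :: i :: r2 :: r3 :: R := fun z hz h =>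
    hdis z hz z (List.mem_cons_of_mem _ (pU.subset h)) rfl
  have hnd1 : ((Z ++ [o]) ++ (r1 :: i :: r2 :: r3 :: R)).Nodup := by
    refine List.nodup_append.2 ⟨?_, pU.nodup_iff.2 hV', ?_⟩
    · refine List.nodup_append.2 ⟨hZ, by simp, ?_⟩
      intro z hz b hb
      simp only [List.mem_singleton] at hb
      subst hb
      exact hdis z hz b (by simp)
    · intro z hz b hb hzb
      subst hzb
      simp only [List.mem_append, List.mem_singleton] at hz
      rcases hz with hz | hz
      · exact hZU z hz hb
      · subst hz; exact hoU hb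
  have hnd2 : (Z ++ (r3 :: r1 :: r2 :: i :: R)).Nodup := by
    refine List.nodup_append.2 ⟨hZ, pV.nodup_iff.2 hV', ?_⟩
    intro z hz b hb hzb
    subst hzb
    exact hZU z hz ((pV.trans pU.symm).subset hb)
  have a1 := T_main (R.length + 4) (r1 :: i :: r2 :: r3 :: R) (Z ++ [o]) lU hnd1
  have a2 := (T_main (R.length + 4) (r3 :: r1 :: r2 :: i :: R) Z lV hnd2).congr
    (pV.trans pU.symm)
  have hO4 : Odd (R.length + 4) := by
    obtain ⟨k, hk⟩ := hR; exact ⟨k + 2, by omega⟩
  have d1 := (D_form _ _ lU).2 hO4 r1 i r2 (r3 :: R) rfl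
  have d2 := (D_form _ _ lV).2 hO4 r3 r1 r2 (i :: R) rfl
  have sU : S (R.length + 4) (r1 :: i :: r2 :: r3 :: R) =
      S (R.length + 3) (i :: r2 :: r3 :: R) ++ [r1] := by
    show S (R.length + 3) (th (r2 :: i :: r3 :: R)) ++ [r1] = _
    rw [th_cons, if_pos]
    obtain ⟨k, hk⟩ := hR
    exact ⟨k + 1, by simp; omega⟩
  have l3 : (i :: r2 :: r3 :: R).length = R.length + 3 := by simp
  have pU' : (r1 :: i :: r2 :: r3 :: R).Nodup := pU.nodup_iff.2 hV'
  have nd3 : (i :: r2 :: r3 :: R).Nodup := (List.nodup_cons.1 pU').2
  have p3 := S_perm _ _ l3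
  have q3 := par_S_aux _ _ nd3 l3 (by omega)
  have hi2 : i ≠ r2 := by simp at hVn; tauto
  have hi3 : i ≠ r3 := by simp at hVn; tauto
  have h23 : r2 ≠ r3 := by simp at hVn; tauto
  have pp : (i :: r2 :: r3 :: R).Perm (r3 :: r2 :: i :: R) := by
    have a1 : (i :: r2 :: r3 :: R).Perm (r2 :: i :: r3 :: R) := List.Perm.swap _ _ _
    have a2 : (r2 :: i :: r3 :: R).Perm (r2 :: r3 :: i :: R) := (List.Perm.swap _ _ _).cons r2
    have a3 : (r2 :: r3 :: i :: R).Perm (r3 :: r2 :: i :: R) := List.Perm.swap _ _ _
    exact a1.trans (a2.trans a3)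
  have qq : par (i :: r2 :: r3 :: R) = par (r3 :: r2 :: i :: R) + 1 := by
    have b1 := par_swap hi2 (r3 :: R)
    have b2 := par_swap_at [r2] hi3 R
    have b3 := par_swap h23 (i :: R)
    simp only [List.cons_append, List.nil_append] at b2
    rw [b1, b2, b3]
    linear_combination two0
  have hstrip : Strip (Z ++ S (R.length + 4) (r1 :: i :: r2 :: r3 :: R))
      (ord Z (r3 :: r1 :: r2 :: i :: R)) := by
    rw [sU, ← List.append_assoc]
    show Strip _ (r1 :: (Z ++ r3 :: r2 :: i :: R))
    have hdS : ∀ z ∈ Z, ∀ x ∈ S (R.length + 3) (i :: r2 :: r3 :: R), z ≠ x := by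
      intro z hz x hx hzx
      subst hzx
      exact hZU z hz (List.mem_cons_of_mem _ (p3.subset hx))
    refine (two_main _ _ _ rfl (List.nodup_append.2 ⟨hZ, p3.nodup_iff.2 nd3, hdS⟩)
      (Ev.append_left Z ⟨p3.trans pp, ?_⟩) ?_).lift r1
    · rw [q3, qq]
      linear_combination two0
    · right; left
      have hl : (Z ++ S (R.length + 3) (i :: r2 :: r3 :: R)).getLast? = some i := by
        have h := last_S (R.length + 2) i (r2 :: r3 :: R)
        rw [List.getLast?_append, h]; rfl
      rw [hl]
      cases Z with
      | nil =>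
        simp only [List.nil_append, List.head?_cons, ne_eq, Option.some.injEq]
        exact Ne.symm hi3
      | cons z Z =>
        simp only [List.cons_append, List.head?_cons, ne_eq, Option.some.injEq]
        exact hdis z (by simp) i (by simp)
  have a4 := TP.step hoU a1 a2 hstrip hZU hoZ
  have eord : ord (Z ++ [o]) (r1 :: i :: r2 :: r3 :: R) = i :: (Z ++ o :: r1 :: r2 :: r3 :: R) := by
    show i :: ((Z ++ [o]) ++ r1 :: r2 :: r3 :: R) = _
    simp
  rw [eord, d1, d2] at a4
  have eE : (fun d => xor (xor (decide (d = r1)) (xor (decide (d = i)) (decide (d = r2))))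
      (xor (decide (d = o)) (xor (decide (d = r3)) (xor (decide (d = r1)) (decide (d = r2)))))) =
      (fun d : α => xor (decide (d = o)) (xor (decide (d = i)) (decide (d = r3)))) := by
    funext d
    cases decide (d = r1) <;> cases decide (d = i) <;> cases decide (d = r2) <;>
      cases decide (d = r3) <;> cases decide (d = o) <;> rfl
  have a5 := a4.congr (pU.cons o)
  simpa only [eE] using a5

/-- closed walk, number of directions odd -/
theorem closed_odd (p o i r1 r2 r3 : α) (R : List α) (hR : Odd R.length)
    (hnd : (p :: o :: i :: r1 :: r2 :: r3 :: R).Nodup)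
    (hall : ∀ x, x ∈ p :: o :: i :: r1 :: r2 :: r3 :: R) (v : α → Bool) :
    ∃ l : List α, l.Perm (p :: o :: i :: r1 :: r2 :: r3 :: R) ∧
      Reach (v, l) (v, l) (3 ^ (R.length + 6) - 1) Set.univ := by
  have hnd' : (o :: i :: r1 :: r2 :: r3 :: R).Nodup := (List.nodup_cons.1 hnd).2
  have hpL : p ∉ (o :: i :: r1 :: r2 :: r3 :: R) := (List.nodup_cons.1 hnd).1
  have hoi : o ≠ i := by simp at hnd; tauto
  have ho3 : o ≠ r3 := by simp at hnd; tauto
  have hi3 : i ≠ r3 := by simp at hnd; tauto
  have h13 : r1 ≠ r3 := by simp at hnd; tauto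
  have h23 : r2 ≠ r3 := by simp at hnd; tauto
  have hi1 : i ≠ r1 := by simp at hnd; tauto
  have hi2 : i ≠ r2 := by simp at hnd; tauto
  have h12 : r1 ≠ r2 := by simp at hnd; tauto
  have ho1 : o ≠ r1 := by simp at hnd; tauto
  have ho2 : o ≠ r2 := by simp at hnd; tauto
  have tA := star_tree o i r1 r2 r3 R [p] hR hnd
  have pBA : (i :: o :: r1 :: r2 :: r3 :: R).Perm (o :: i :: r1 :: r2 :: r3 :: R) :=
    List.Perm.swap _ _ _
  have hndB : ([] ++ (i :: o :: r1 :: r2 :: r3 :: R)).Nodup := pBA.nodup_iff.2 hnd'
  have tB := (star_tree i o r1 r2 r3 R [] hR hndB).congr pBA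
  have hE : (fun d : α => xor (decide (d = o)) (xor (decide (d = i)) (decide (d = r3)))) =
      (fun d => xor (decide (d = i)) (xor (decide (d = o)) (decide (d = r3)))) := by
    funext d
    cases decide (d = i) <;> cases decide (d = r3) <;> cases decide (d = o) <;> rfl
  have lA : (r3 :: r1 :: r2 :: i :: R).length = R.length + 4 := by simp
  have lB : (r3 :: r1 :: r2 :: o :: R).length = R.length + 4 := by simp
  -- permutations between label lists, with parity
  have perm_gen : ∀ x : α, x ≠ r1 → x ≠ r2 → x ≠ r3 →
      (r3 :: r1 :: r2 :: x :: R).Perm (x :: r1 :: r2 :: r3 :: R) ∧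
      par (r3 :: r1 :: r2 :: x :: R) = par (x :: r1 :: r2 :: r3 :: R) + 1 := by
    intro x hx1 hx2 hx3
    refine ⟨?_, ?_⟩
    · have a1 : (r3 :: r1 :: r2 :: x :: R).Perm (r1 :: r3 :: r2 :: x :: R) := List.Perm.swap _ _ _
      have a2 : (r1 :: r3 :: r2 :: x :: R).Perm (r1 :: r2 :: r3 :: x :: R) :=
        (List.Perm.swap _ _ _).cons r1
      have a3 : (r1 :: r2 :: r3 :: x :: R).Perm (r1 :: r2 :: x :: r3 :: R) :=
        ((List.Perm.swap _ _ _).cons r2).cons r1
      have a4 : (r1 :: r2 :: x :: r3 :: R).Perm (r1 :: x :: r2 :: r3 :: R) :=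
        (List.Perm.swap _ _ _).cons r1
      have a5 : (r1 :: x :: r2 :: r3 :: R).Perm (x :: r1 :: r2 :: r3 :: R) := List.Perm.swap _ _ _
      exact a1.trans (a2.trans (a3.trans (a4.trans a5)))
    · have b1 := par_swap (Ne.symm h13) (r2 :: x :: R)
      have b2 := par_swap_at [r1] (Ne.symm h23) (x :: R)
      have b3 := par_swap_at [r1, r2] (Ne.symm hx3) R
      have b4 := par_swap_at [r1] (Ne.symm hx2) (r3 :: R)
      have b5 := par_swap (Ne.symm hx1) (r2 :: r3 :: R)
      simp only [List.cons_append, List.nil_append] at b2 b3 b4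
      rw [b1, b2, b3, b4, b5]
      linear_combination 2 * two0
  obtain ⟨pA, qA⟩ := perm_gen i hi1 hi2 hi3
  obtain ⟨pB, qB⟩ := perm_gen o ho1 ho2 ho3
  have ndA : (r3 :: r1 :: r2 :: i :: R).Nodup := pA.nodup_iff.2 (List.nodup_cons.1 hnd').2
  have ndB : (r3 :: r1 :: r2 :: o :: R).Nodup :=
    pB.nodup_iff.2 (List.nodup_cons.1 (pBA.nodup_iff.2 hnd')).2
  have sA := S_perm _ _ lA
  have sB := S_perm _ _ lB
  have uA := par_S_aux _ _ ndA lA (by omega)
  have uB := par_S_aux _ _ ndB lB (by omega)
  have hS1 : Strip (S (R.length + 4) (r3 :: r1 :: r2 :: i :: R) ++ [o])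
      (o :: ([] ++ i :: r1 :: r2 :: r3 :: R)) := by
    refine (two_main _ _ _ rfl (sA.nodup_iff.2 ndA) ⟨sA.trans pA, ?_⟩ ?_).lift o
    · rw [uA, qA]
      show _ = par (i :: r1 :: r2 :: r3 :: R)
      linear_combination two0
    · right; left
      rw [last_S (R.length + 3) r3 (r1 :: r2 :: i :: R)]
      simp only [List.nil_append, List.head?_cons, ne_eq, Option.some.injEq]
      exact hi3
  have hS2 : Strip (p :: (S (R.length + 4) (r3 :: r1 :: r2 :: o :: R) ++ [i]))
      (i :: ([p] ++ o :: r1 :: r2 :: r3 :: R)) := by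
    show Strip ((p :: S (R.length + 4) (r3 :: r1 :: r2 :: o :: R)) ++ [i])
      (i :: (p :: o :: r1 :: r2 :: r3 :: R))
    have hp2 : p ∉ S (R.length + 4) (r3 :: r1 :: r2 :: o :: R) := by
      intro h
      have h' := (sB.trans pB).subset h
      apply hpL
      exact ((List.Sublist.refl (r1 :: r2 :: r3 :: R)).cons i |>.cons_cons o).subset h'
    refine (two_main _ _ _ rfl (List.nodup_cons.2 ⟨hp2, sB.nodup_iff.2 ndB⟩)
      (Ev.cons p ⟨sB.trans pB, ?_⟩) ?_).lift i
    · rw [uB, qB]
      linear_combination two0
    · right; left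
      have : (p :: S (R.length + 4) (r3 :: r1 :: r2 :: o :: R)).getLast? = some r3 := by
        have h := last_S (R.length + 3) r3 (r1 :: r2 :: o :: R)
        have hh : (p :: S (R.length + 4) (r3 :: r1 :: r2 :: o :: R)) =
          [p] ++ S (R.length + 3 + 1) (r3 :: r1 :: r2 :: o :: R) := rfl
        rw [hh, List.getLast?_append, h]; rfl
      rw [this]
      simp only [List.head?_cons, ne_eq, Option.some.injEq]
      intro h
      apply hpL; rw [h]; simp
  refine ⟨p :: (S (R.length + 4) (r3 :: r1 :: r2 :: o :: R) ++ [i]), ?_, ?_⟩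
  · refine List.Perm.cons p ?_
    refine (List.perm_append_singleton i _).trans ?_
    exact ((sB.trans pB).cons i).trans pBA
  · have := close_up hpL hall tA tB hE hS1 hS2 v
    exact this

end Pool.Agent.V5helper11.TypeB
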