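import Mathlib
import Pool.Agent.V5helper11.TypeB.Walk

/-! Closed walks on the flags of the cube of dimension two to five, found by computer. -/

namespace Pool.Agent.V5helper11.TypeB

/-- ternary digit -/
def dig : Option Bool → ℕ
  | none => 0
  | some false => 1
  | some true => 2

/-- ternary code of a list of digits -/
def code : List (Option Bool) → ℕ
  | [] => 0
  | a :: l => dig a + 3 * code l

lemma dig_lt (a : Option Bool) : dig a < 3 := by
  rcases a with _ | _ | _ <;> decide

lemma dig_inj {a b : Option Bool} (h : dig a = dig b) : a = b := by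
  rcases a with _ | _ | _ <;> rcases b with _ | _ | _ <;> simp_all [dig]

lemma code_lt (l : List (Option Bool)) : code l < 3 ^ l.length := by
  induction l with
  | nil => simp [code]
  | cons a l ih =>
    have := dig_lt a
    simp only [code, List.length_cons, pow_succ]
    omega

lemma code_inj : ∀ l l' : List (Option Bool), l.length = l'.length → code l = code l' → l = l'
  | [], [], _, _ => rfl
  | [], _ :: _, h, _ => by simp at h
  | _ :: _, [], h, _ => by simp at h
  | a :: l, b :: l', h, hc => by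
    simp only [code] at hc
    have h1 := dig_lt a
    have h2 := dig_lt b
    have h3 : dig a = dig b := by omega
    have h4 : code l = code l' := by omega
    rw [dig_inj h3, code_inj l l' (by simpa using h) h4]

/-- code of a face -/
def cf {n : ℕ} (f : Fin n → Option Bool) : ℕ := code (List.ofFn f)

lemma cf_lt {n : ℕ} (f : Fin n → Option Bool) : cf f < 3 ^ n := by
  have := code_lt (List.ofFn f)
  simpa [cf] using this

lemma cf_inj {n : ℕ} {f g : Fin n → Option Bool} (h : cf f = cf g) : f = g := by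
  have := code_inj _ _ (by simp) h
  exact List.ofFn_injective this

/-- the flag described by a bit mask and a list -/
def toF {n : ℕ} (s : ℕ × List (Fin n)) : Flag (Fin n) := (fun i => s.1.testBit i, s.2)

/-- exchange positions `k` and `k + 1` -/
def swapAt {α : Type*} : ℕ → List α → List α
  | 0, a :: b :: l => b :: a :: l
  | k + 1, a :: l => a :: swapAt k l
  | _, l => l

lemma swapAt_spec {α : Type*} : ∀ (k : ℕ) (l : List α), k + 1 < l.length →
    ∃ C a b r, l = C ++ a :: b :: r ∧ swapAt k l = C ++ b :: a :: r ∧ C.length = k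
  | 0, [], h => by simp at h
  | 0, [_], h => by simp at h
  | 0, a :: b :: l, _ => ⟨[], a, b, l, rfl, rfl, rfl⟩
  | k + 1, [], h => by simp at h
  | k + 1, a :: l, h => by
    obtain ⟨C, x, y, r, h1, h2, h3⟩ := swapAt_spec k l (by simp at h; omega)
    exact ⟨a :: C, x, y, r, by rw [h1]; rfl, by simp [swapAt, h2], by simp [h3]⟩

/-- one move -/
def mv {n : ℕ} (i : ℕ) (s : ℕ × List (Fin n)) : ℕ × List (Fin n) :=
  match i with
  | 0 => (s.1 ^^^ (1 <<< (match s.2 with | [] => 0 | a :: _ => a.val)), s.2)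
  | k + 1 => (s.1, swapAt k s.2)

/-- a move is legal -/
def ok {n : ℕ} (i : ℕ) (s : ℕ × List (Fin n)) : Bool := decide (i < s.2.length)

lemma adj_mv {n : ℕ} (i : ℕ) (s : ℕ × List (Fin n)) (h : ok i s = true) :
    Adj (toF s) (toF (mv i s)) := by
  obtain ⟨m, l⟩ := s
  unfold ok at h
  simp only [decide_eq_true_eq] at h
  match i with
  | 0 =>
    match l, h with
    | a :: l, _ =>
      have h1 := Adj.flip (fun i : Fin n => m.testBit i) a l
      have h2 : Function.update (fun i : Fin n => m.testBit i) a (!m.testBit a) =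
          fun i : Fin n => (m ^^^ (1 <<< a.val)).testBit i := by
        funext j
        by_cases hj : j = a
        · subst hj
          simp [Nat.testBit_xor, Nat.one_shiftLeft]
        · rw [Function.update_of_ne hj]
          have : a.val ≠ j.val := fun h => hj (Fin.ext h.symm)
          simp [Nat.testBit_xor, Nat.one_shiftLeft, Nat.testBit_two_pow_of_ne this]
      simp only [h2] at h1
      exact h1
  | k + 1 =>
    obtain ⟨C, x, y, r, h1, h2, -⟩ := swapAt_spec k l h
    have h3 := Adj.swap (fun i : Fin n => m.testBit i) C x y r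
    show Adj ((fun i : Fin n => m.testBit i), l) ((fun i : Fin n => m.testBit i), swapAt k l)
    rw [h1] at h2 ⊢
    rw [h2]
    exact h3

/-- run a list of moves, collecting the codes of the faces entered in a bit mask -/
def run {n : ℕ} : List ℕ → ℕ × List (Fin n) → ℕ → Bool × (ℕ × List (Fin n)) × ℕ
  | [], s, acc => (true, s, acc)
  | i :: ms, s, acc =>
    if ok i s then
      run ms (mv i s) (acc ||| (1 <<< cf (face (toF (mv i s)).1 ((mv i s).2.take i))))
    else (false, s, acc)

lemma run_reach {n : ℕ} : ∀ (ms : List ℕ) (s : ℕ × List (Fin n)) (acc : ℕ)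
    (s' : ℕ × List (Fin n)) (acc' : ℕ), run ms s acc = (true, s', acc') →
    Reach (toF s) (toF s') ms.length
      {f | acc'.testBit (cf f) = true ∧ acc.testBit (cf f) = false}
  | [], s, acc, s', acc', h => by
    simp only [run, Prod.mk.injEq, true_and] at h
    obtain ⟨h1, h2⟩ := h
    subst h1; subst h2
    refine Reach.refl _ ?_
    rintro f ⟨h1, h2⟩
    rw [h1] at h2; cases h2
  | i :: ms, s, acc, s', acc', h => by
    unfold run at h
    by_cases hok : ok i s = true
    · rw [if_pos hok] at h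
      set g := face (toF (mv i s)).1 ((mv i s).2.take i) with hg
      have h1 := run_reach ms _ _ s' acc' h
      have h2 : Reach (toF s) (toF (mv i s)) 1 {g} := by
        refine ⟨fun j => if j = 0 then toF s else toF (mv i s), by simp, by simp, ?_, ?_⟩
        · intro j hj
          have : j = 0 := by omega
          subst this
          simpa using adj_mv i s hok
        · intro f hf
          refine ⟨1, le_rfl, i, ?_⟩
          simp only [Set.mem_singleton_iff] at hf
          rw [hf]
          simp [toF, hg]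
      have h3 := h2.trans h1
      rw [List.length_cons, add_comm]
      refine h3.mono ?_
      rintro f ⟨h4, h5⟩
      by_cases hfg : f = g
      · exact Or.inl hfg
      · right
        refine ⟨h4, ?_⟩
        have h6 : cf g ≠ cf f := fun h => hfg (cf_inj h.symm)
        rw [Nat.testBit_or, h5, Nat.one_shiftLeft, Nat.testBit_two_pow_of_ne h6]
        rfl
    · rw [if_neg hok] at h
      simp at h

/-- the check on a list of moves -/
def good (n : ℕ) (ms : List ℕ) (l : List (Fin n)) : Bool :=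
  match run ms (0, l) 0 with
  | (b, s, acc) => b && decide (s = (0, l)) && decide (acc ||| 1 = 2 ^ (3 ^ n) - 1) &&
      decide (ms.length = 3 ^ n - 1)

lemma code_replicate (n : ℕ) : code (List.replicate n none) = 0 := by
  induction n with
  | zero => rfl
  | succ n ih =>
    rw [List.replicate_succ, code, ih]
    rfl

lemma cf_eq_zero {n : ℕ} {f : Fin n → Option Bool} (h : cf f = 0) : f = fun _ => none := by
  have h0 : cf (fun _ : Fin n => (none : Option Bool)) = 0 := by
    unfold cf
    rw [List.ofFn_const]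
    exact code_replicate n
  exact cf_inj (h.trans h0.symm)

theorem good_reach (n : ℕ) (ms : List ℕ) (l : List (Fin n)) (hl : ∀ i, i ∈ l)
    (h : good n ms l = true) :
    Reach ((fun _ => false), l) ((fun _ => false), l) (3 ^ n - 1) Set.univ := by
  unfold good at h
  rcases hr : run ms (0, l) 0 with ⟨b, s, acc⟩
  rw [hr] at h
  simp only [Bool.and_eq_true, decide_eq_true_eq] at h
  obtain ⟨⟨⟨hb, hs⟩, hacc⟩, hlen⟩ := h
  subst hb; subst hs
  have h1 := run_reach ms _ _ _ _ hr
  rw [hlen] at h1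
  have e : toF (0, l) = (((fun _ => false), l) : Flag (Fin n)) := by
    simp [toF]
  rw [e] at h1
  have h2 : Reach (((fun _ => false), l) : Flag (Fin n)) ((fun _ => false), l) 0 {fun _ => none} := by
    refine Reach.refl _ ?_
    intro f hf
    simp only [Set.mem_singleton_iff] at hf
    subst hf
    refine ⟨l.length, ?_⟩
    funext d
    simp [face, hl d]
  have h3 := h2.trans h1
  rw [Nat.zero_add] at h3
  refine h3.mono ?_
  intro f _
  by_cases hf : cf f = 0
  · left; exact cf_eq_zero hf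
  · right
    refine ⟨?_, by simp⟩
    have h4 : (acc ||| 1).testBit (cf f) = true := by
      rw [hacc, Nat.testBit_two_pow_sub_one]
      simpa using cf_lt f
    rw [Nat.testBit_or] at h4
    have h5 : Nat.testBit 1 (cf f) = false := by
      have : (1 : ℕ) = 2 ^ 0 := rfl
      rw [this]
      exact Nat.testBit_two_pow_of_ne (Ne.symm hf)
    rw [h5, Bool.or_false] at h4
    exact h4


theorem good_2 : good 2 [0, 1, 0, 1, 0, 1, 0, 1]
    [0, 1] = true := by decide +kernel

theorem good_3 : good 3 [0, 2, 1, 0, 1, 0, 1, 2, 1, 0, 1, 2, 1, 2, 0, 1, 2, 1, 0, 1, 2, 1, 0, 1, 0, 1]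
    [0, 1, 2] = true := by decide +kernel

theorem good_4 : good 4 [1, 2, 3, 2, 3, 1, 2, 3, 2, 1, 2, 0, 1, 2, 3, 1, 2, 1, 2, 0, 1, 2, 3, 1, 2, 1, 2, 0, 1, 2,
    1, 0, 1, 2, 3, 1, 2, 1, 2, 0, 1, 2, 1, 0, 1, 2, 1, 0, 1, 0, 1, 2, 3, 2, 1, 2, 1, 0, 1, 2,
    1, 0, 1, 2, 1, 0, 1, 0, 1, 2, 1, 0, 1, 0, 1, 0, 3, 2, 1, 0]
    [3, 2, 1, 0] = true := by decide +kernel

theorem good_5 : good 5 [3, 1, 2, 1, 4, 2, 3, 2, 1, 2, 3, 2, 3, 4, 3, 2, 1, 2, 3, 2, 3, 4, 3, 2, 3, 4, 0, 1, 2, 3,
    4, 1, 2, 1, 2, 3, 2, 1, 3, 2, 3, 2, 0, 1, 2, 3, 4, 1, 2, 1, 2, 3, 2, 1, 3, 2, 3, 2, 0, 1,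
    2, 3, 1, 2, 1, 2, 0, 1, 2, 3, 4, 1, 2, 1, 2, 3, 2, 1, 3, 2, 3, 2, 0, 1, 2, 3, 1, 2, 1, 2,
    0, 1, 2, 3, 1, 2, 1, 2, 0, 1, 2, 1, 0, 1, 2, 3, 4, 1, 2, 1, 2, 3, 2, 1, 3, 2, 3, 2, 0, 1,
    2, 3, 1, 2, 1, 2, 0, 1, 2, 3, 1, 2, 1, 2, 0, 1, 2, 1, 0, 1, 2, 3, 1, 2, 1, 2, 0, 1, 2, 1,
    0, 1, 2, 1, 0, 1, 0, 1, 2, 3, 4, 2, 3, 2, 1, 2, 1, 3, 2, 1, 2, 3, 0, 1, 2, 3, 1, 2, 1, 2,
    0, 1, 2, 3, 1, 2, 1, 2, 0, 1, 2, 1, 0, 1, 2, 3, 1, 2, 1, 2, 0, 1, 2, 1, 0, 1, 2, 1, 0, 1,
    0, 1, 2, 3, 1, 2, 1, 2, 0, 1, 2, 1, 0, 1, 2, 1, 0, 1, 0, 1, 2, 1, 0, 1, 0, 1, 0, 4, 3, 2,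
    1, 0]
    [4, 2, 1, 3, 0] = true := by decide +kernel

end Pool.Agent.V5helper11.TypeB
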