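import Mathlib
import Pool.Agent.V5helper11.TypeB.Closed
import Pool.Agent.V5helper11.TypeB.Small

/-! From a closed walk of length `3 ^ n - 1` visiting all faces to a facet-Hamiltonian cycle. -/

namespace Pool.Agent.V5helper11.TypeB

set_option linter.unusedSectionVars false

/-- closed walk for every dimension at least two -/
theorem closed_walk (n : ℕ) (hn : 2 ≤ n) : ∃ (v : Fin n → Bool) (l : List (Fin n)),
    l.Perm (List.finRange n) ∧ Reach (v, l) (v, l) (3 ^ n - 1) Set.univ := by
  match n, hn with
  | 2, _ =>
    refine ⟨_, _, ?_, good_reach 2 _ _ ?_ good_2⟩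
    · decide
    · decide
  | 3, _ =>
    refine ⟨_, _, ?_, good_reach 3 _ _ ?_ good_3⟩
    · decide
    · decide
  | 4, _ =>
    refine ⟨_, _, ?_, good_reach 4 _ _ ?_ good_4⟩
    · decide
    · decide
  | 5, _ =>
    refine ⟨_, _, ?_, good_reach 5 _ _ ?_ good_5⟩
    · decide
    · decide
  | n + 6, _ =>
    have hnd : (List.finRange (n + 6)).Nodup := List.nodup_finRange _
    have hall : ∀ x : Fin (n + 6), x ∈ List.finRange (n + 6) := List.mem_finRange
    have hlen : (List.finRange (n + 6)).length = n + 6 := List.length_finRange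
    obtain ⟨p, a, z, b, c, c', M, hL⟩ : ∃ (p a z b c c' : Fin (n + 6)) (M : List (Fin (n + 6))),
        List.finRange (n + 6) = p :: a :: z :: b :: c :: c' :: M := by
      rcases hf : List.finRange (n + 6) with _ | ⟨p, _ | ⟨a, _ | ⟨z, _ | ⟨b, _ | ⟨c, _ | ⟨c', M⟩⟩⟩⟩⟩⟩
      all_goals first
        | (exact ⟨_, _, _, _, _, _, _, rfl⟩)
        | (rw [hf] at hlen; simp at hlen)
    have hM : M.length = n := by
      rw [hL] at hlen; simpa using hlen
    rw [hL] at hnd hall
    rcases Nat.even_or_odd M.length with hE | hO
    · obtain ⟨l, h1, h2⟩ := closed_even p a z b c c' M hE hnd hall (fun _ => false)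
      rw [hM] at h2
      exact ⟨_, l, by rw [hL]; exact h1, h2⟩
    · obtain ⟨l, h1, h2⟩ := closed_odd p a z b c c' M hO hnd hall (fun _ => false)
      rw [hM] at h2
      exact ⟨_, l, by rw [hL]; exact h1, h2⟩

variable {α : Type*} [DecidableEq α]

lemma Adj.perm {s t : Flag α} (h : Adj s t) : t.2.Perm s.2 := by
  cases h with
  | flip v a l => exact List.Perm.refl _
  | swap v C a b l => exact (List.Perm.swap a b l).append_left C

lemma face_congr' (v : α → Bool) {A B : List α} (h : ∀ a, a ∈ A ↔ a ∈ B) :
    face v A = face v B := by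
  funext d
  simp only [face, h d]

/-- a step enters at most one face -/
lemma adj_enter {s t : Flag α} (h : Adj s t) :
    ∃ g, ∀ f, Visits t f → ¬ Visits s f → f = g := by
  cases h with
  | flip v a l =>
    refine ⟨face (Function.update v a (!v a)) [], ?_⟩
    rintro f ⟨k, hk⟩ hf
    cases k with
    | zero => simpa using hk
    | succ k =>
      exfalso
      apply hf
      refine ⟨k + 1, ?_⟩
      rw [hk]
      funext d
      by_cases hd : d = a
      · subst hd; simp [face]
      · simp [face, Function.update_of_ne hd]
  | swap v C a b l =>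
    refine ⟨face v (C ++ [b]), ?_⟩
    rintro f ⟨k, hk⟩ hf
    rcases lt_trichotomy k (C.length + 1) with h1 | h1 | h1
    · exfalso
      apply hf
      refine ⟨k, ?_⟩
      rw [hk]
      have : k ≤ C.length := by omega
      simp only [List.take_append_of_le_length this]
    · subst h1
      rw [hk]
      have e : (C ++ b :: a :: l).take (C.length + 1) = C ++ [b] := by
        rw [List.take_append, List.take_of_length_le (by omega)]
        simp
      simp only [e]
    · exfalso
      apply hf
      refine ⟨k, ?_⟩
      rw [hk]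
      apply face_congr'
      intro x
      obtain ⟨m, rfl⟩ : ∃ m, k = C.length + (m + 2) := ⟨k - C.length - 2, by omega⟩
      simp only [List.take_length_add_append, List.take_succ_cons, List.mem_append,
        List.mem_cons]
      tauto

/-- a step exits some face of the flag -/
lemma adj_exit {s t : Flag α} (h : Adj s t) (hnd : s.2.Nodup) :
    ∃ k < s.2.length, ¬ Visits t (face s.1 (s.2.take k)) := by
  cases h with
  | flip v a l =>
    refine ⟨0, by simp, ?_⟩
    rintro ⟨k, hk⟩
    have := congrFun hk a
    cases k with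
    | zero => simp [face] at this
    | succ k => simp [face] at this
  | swap v C a b l =>
    simp only at hnd
    refine ⟨C.length + 1, by simp, ?_⟩
    rintro ⟨k, hk⟩
    have hset : ∀ x, x ∈ (C ++ a :: b :: l).take (C.length + 1) ↔
        x ∈ (C ++ b :: a :: l).take k := by
      intro x
      have := congrFun hk x
      simp only [face] at this
      by_cases h1 : x ∈ (C ++ a :: b :: l).take (C.length + 1) <;>
        by_cases h2 : x ∈ (C ++ b :: a :: l).take k <;> simp_all
    have e1 : (C ++ a :: b :: l).take (C.length + 1) = C ++ [a] := by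
      simp [List.take_append]
    rw [e1] at hset
    have ha : a ∈ (C ++ b :: a :: l).take k := (hset a).1 (by simp)
    have hab : a ≠ b := by
      intro h; subst h
      rw [List.nodup_append] at hnd
      have := hnd.2.1
      simp at this
    have haC : a ∉ C := by
      intro h
      rw [List.nodup_append] at hnd
      exact hnd.2.2 a h a (by simp) rfl
    have hbC : b ∉ C := by
      intro h
      rw [List.nodup_append] at hnd
      exact hnd.2.2 b h b (by simp) rfl
    have hk2 : C.length + 2 ≤ k := by
      by_contra hlt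
      have hk3 : k ≤ C.length + 1 := by omega
      have h4 : (C ++ b :: a :: l).take k <+: (C ++ b :: a :: l).take (C.length + 1) :=
        List.take_prefix_take_left hk3
      have h5 := h4.subset ha
      have e2 : (C ++ b :: a :: l).take (C.length + 1) = C ++ [b] := by
        simp [List.take_append]
      rw [e2] at h5
      simp only [List.mem_append, List.mem_singleton] at h5
      tauto
    have hb : b ∈ (C ++ b :: a :: l).take k := by
      have h4 : (C ++ b :: a :: l).take (C.length + 1) <+: (C ++ b :: a :: l).take k :=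
        List.take_prefix_take_left (by omega)
      apply h4.subset
      have e2 : (C ++ b :: a :: l).take (C.length + 1) = C ++ [b] := by
        simp [List.take_append]
      rw [e2]; simp
    have := (hset b).2 hb
    simp only [List.mem_append, List.mem_singleton] at this
    rcases this with h | h
    · exact hbC h
    · exact hab h.symm

lemma walk_perm {w : ℕ → Flag α} {N : ℕ} (h : ∀ i < N, Adj (w i) (w (i + 1))) :
    ∀ i ≤ N, (w i).2.Perm (w 0).2 := by
  intro i
  induction i with
  | zero => intro _; exact List.Perm.refl _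
  | succ i ih =>
    intro hi
    exact (h i (by omega)).perm.trans (ih (by omega))

/-- entering step between a time not visiting and a later time visiting -/
lemma enter_between {W : ℕ → Flag α} {f : α → Option Bool} {a b : ℕ} (hab : a ≤ b)
    (ha : ¬ Visits (W a) f) (hb : Visits (W b) f) :
    ∃ j, a ≤ j ∧ j < b ∧ ¬ Visits (W j) f ∧ Visits (W (j + 1)) f := by
  obtain ⟨m, rfl⟩ := Nat.exists_eq_add_of_le hab
  clear hab
  induction m with
  | zero => exact absurd hb ha
  | succ m ih =>
    by_cases hm : Visits (W (a + m)) f
    · obtain ⟨j, h1, h2, h3, h4⟩ := ih hm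
      exact ⟨j, h1, by omega, h3, h4⟩
    · exact ⟨a + m, by omega, by omega, hm, hb⟩

/-- faces of the cube other than the cube itself -/
def Proper {n : ℕ} (f : Fin n → Option Bool) : Prop := ∃ d, f d ≠ none

lemma card_proper (n : ℕ) : Nat.card {f : Fin n → Option Bool // Proper f} = 3 ^ n - 1 := by
  classical
  have h1 : {f : Fin n → Option Bool // Proper f} ≃ {f : Fin n → Option Bool // f ≠ fun _ => none} := by
    refine Equiv.subtypeEquivRight ?_
    intro f
    unfold Proper
    constructor
    · rintro ⟨d, hd⟩ h; exact hd (congrFun h d)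
    · intro h
      by_contra hcon
      push Not at hcon
      exact h (funext hcon)
  rw [Nat.card_congr h1, Nat.card_eq_fintype_card, Fintype.card_subtype_compl]
  simp

theorem cycle_exists (n : ℕ) (hn : 2 ≤ n) : ∃ W : ℕ → Flag (Fin n),
    (∀ i, W (i + (3 ^ n - 1)) = W i) ∧
    (∀ i, (W i).2.Perm (List.finRange n)) ∧
    (∀ i, Adj (W i) (W (i + 1))) ∧
    (∀ i j, i < j → j < i + (3 ^ n - 1) → W i ≠ W j) ∧
    (∀ f, Proper f → ∃ i, Visits (W i) f) ∧
    (∀ f, Proper f → ∀ a b, a ≤ b → b ≤ a + (3 ^ n - 1) → Visits (W a) f → Visits (W b) f →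
      (∀ k, a ≤ k → k ≤ b → Visits (W k) f) ∨
      (∀ k, b ≤ k → k ≤ a + (3 ^ n - 1) → Visits (W k) f)) := by
  classical
  obtain ⟨v, l, hl, w, h0, h1, h2, h3⟩ := closed_walk n hn
  set N := 3 ^ n - 1 with hN
  have hN8 : 8 ≤ N := by
    have : 3 ^ 2 ≤ 3 ^ n := Nat.pow_le_pow_right (by norm_num) hn
    omega
  have hNpos : 0 < N := by omega
  set W : ℕ → Flag (Fin n) := fun i => w (i % N) with hW
  have hper : ∀ i, W (i + N) = W i := by
    intro i; simp [hW]
  have hperm : ∀ i, (W i).2.Perm (List.finRange n) := by
    intro i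
    have := walk_perm h2 (i % N) (Nat.mod_lt _ hNpos).le
    rw [h0] at this
    exact this.trans hl
  have hadj : ∀ i, Adj (W i) (W (i + 1)) := by
    intro i
    have hlt := Nat.mod_lt i hNpos
    have := h2 (i % N) hlt
    simp only [hW]
    by_cases hi : i % N + 1 < N
    · have : (i + 1) % N = i % N + 1 := by
        rw [Nat.add_mod, Nat.mod_eq_of_lt (show 1 < N by omega), Nat.mod_eq_of_lt hi]
      rw [this]
      exact h2 _ hlt
    · have hi' : i % N + 1 = N := by omega
      have : (i + 1) % N = 0 := by
        rw [Nat.add_mod, Nat.mod_eq_of_lt (show 1 < N by omega), hi', Nat.mod_self]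
      have e0 : w 0 = w (i % N + 1) := by rw [hi', h0, h1]
      rw [this, e0]
      exact h2 _ hlt
  have hvis0 : ∀ f : Fin n → Option Bool, ∃ i < N, Visits (W i) f := by
    intro f
    obtain ⟨i, hi, hv⟩ := h3 f (Set.mem_univ _)
    by_cases hiN : i = N
    · refine ⟨0, hNpos, ?_⟩
      simp only [hW, Nat.zero_mod]
      rw [h0, ← h1, ← hiN]
      exact hv
    · refine ⟨i, by omega, ?_⟩
      simp only [hW]
      rw [Nat.mod_eq_of_lt (by omega)]
      exact hv
  have hvis : ∀ f : Fin n → Option Bool, ∀ a, ∃ i, a ≤ i ∧ i < a + N ∧ Visits (W i) f := by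
    intro f a
    obtain ⟨i, hi, hv⟩ := hvis0 f
    -- shift i into [a, a+N)
    obtain ⟨j, hj1, hj2, hj3⟩ : ∃ j, a ≤ j ∧ j < a + N ∧ j % N = i := by
      refine ⟨a + (i + N - a % N) % N, by omega, ?_, ?_⟩
      · have := Nat.mod_lt (i + N - a % N) hNpos
        omega
      · have ha := Nat.mod_lt a hNpos
        rw [Nat.add_mod, Nat.mod_mod, ← Nat.add_mod]
        have h5 : a + (i + N - a % N) = i + N * (a / N + 1) := by
          have := Nat.div_add_mod a N
          have h6 : N * (a / N + 1) = N * (a / N) + N := by ring
          rw [h6]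
          omega
        rw [h5, Nat.add_mul_mod_self_left, Nat.mod_eq_of_lt hi]
    refine ⟨j, hj1, hj2, ?_⟩
    simp only [hW]
    rw [hj3]
    simpa [hW, Nat.mod_eq_of_lt hi] using hv
  -- every proper face is not visited at some time
  have hnvis : ∀ f : Fin n → Option Bool, Proper f → ∃ i < N, ¬ Visits (W i) f := by
    rintro f ⟨d, hd⟩
    cases hfd : f d with
    | none => exact absurd hfd hd
    | some b =>
      obtain ⟨i, hi, hv⟩ := hvis0 (fun _ => some (!b))
      refine ⟨i, hi, ?_⟩
      rintro ⟨k, hk⟩
      obtain ⟨m, hm⟩ := hv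
      have e1 := congrFun hk d
      have e2 := congrFun hm d
      simp only [face] at e1 e2
      rw [hfd] at e1
      split_ifs at e1 e2
      · simp only [Option.some.injEq] at e1 e2
        rw [← e1] at e2
        cases b <;> simp at e2
  -- entering steps
  have henter : ∀ f : {f : Fin n → Option Bool // Proper f}, ∃ i : Fin N,
      ¬ Visits (W i) f.1 ∧ Visits (W (i + 1)) f.1 := by
    rintro ⟨f, hf⟩
    obtain ⟨a, ha, hna⟩ := hnvis f hf
    obtain ⟨b, hb1, hb2, hvb⟩ := hvis f a
    obtain ⟨j, hj1, hj2, hj3, hj4⟩ := enter_between hb1 hna hvb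
    by_cases hjN : j < N
    · exact ⟨⟨j, hjN⟩, hj3, hj4⟩
    · refine ⟨⟨j - N, by omega⟩, ?_, ?_⟩
      · have := hper (j - N)
        rw [Nat.sub_add_cancel (by omega)] at this
        simp only
        rw [← this]; exact hj3
      · have := hper (j - N + 1)
        have e : j - N + 1 + N = j + 1 := by omega
        rw [e] at this
        simp only
        rw [← this]; exact hj4
  choose e he1 he2 using henter
  have hunique_face : ∀ i, ∀ f g : Fin n → Option Bool, ¬ Visits (W i) f → Visits (W (i + 1)) f →
      ¬ Visits (W i) g → Visits (W (i + 1)) g → f = g := by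
    intro i f g hf1 hf2 hg1 hg2
    obtain ⟨x, hx⟩ := adj_enter (hadj i)
    rw [hx f hf2 hf1, hx g hg2 hg1]
  have einj : Function.Injective e := by
    intro f g hfg
    apply Subtype.ext
    refine hunique_face (e f) f.1 g.1 (he1 f) (he2 f) ?_ ?_
    · rw [hfg]; exact he1 g
    · rw [hfg]; exact he2 g
  have ebij : Function.Bijective e := by
    have : Fintype {f : Fin n → Option Bool // Proper f} := Fintype.ofFinite _
    rw [Fintype.bijective_iff_injective_and_card]
    refine ⟨einj, ?_⟩
    rw [← Nat.card_eq_fintype_card, card_proper, Fintype.card_fin]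
  have hunique_step : ∀ f : Fin n → Option Bool, Proper f → ∀ i j : ℕ, i < N → j < N →
      ¬ Visits (W i) f → Visits (W (i + 1)) f → ¬ Visits (W j) f → Visits (W (j + 1)) f →
      i = j := by
    intro f hf i j hi hj a1 a2 b1 b2
    obtain ⟨g, hg⟩ := ebij.2 ⟨i, hi⟩
    obtain ⟨g', hg'⟩ := ebij.2 ⟨j, hj⟩
    have c1 := he1 g
    have c2 := he2 g
    have d1 := he1 g'
    have d2 := he2 g'
    rw [hg] at c1 c2
    rw [hg'] at d1 d2
    have e1 : f = g.1 := hunique_face i f g.1 a1 a2 c1 c2
    have e2 : f = g'.1 := hunique_face j f g'.1 b1 b2 d1 d2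
    have e3 : g = g' := Subtype.ext (e1.symm.trans e2)
    rw [e3, hg'] at hg
    have := congrArg Fin.val hg
    simpa using this.symm
  have hcont : ∀ f, Proper f → ∀ a b, a ≤ b → b ≤ a + N → Visits (W a) f → Visits (W b) f →
      (∀ k, a ≤ k → k ≤ b → Visits (W k) f) ∨
      (∀ k, b ≤ k → k ≤ a + N → Visits (W k) f) := by
    intro f hf a b hab hbN hva hvb
    by_contra hcon
    push Not at hcon
    obtain ⟨⟨k1, hk1, hk1', hn1⟩, ⟨k2, hk2, hk2', hn2⟩⟩ := hcon
    obtain ⟨j1, p1, p2, p3, p4⟩ := enter_between hk1' hn1 hvb
    have hvaN : Visits (W (a + N)) f := by rw [hper]; exact hva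
    obtain ⟨j2, q1, q2, q3, q4⟩ := enter_between hk2' hn2 hvaN
    have hmod : ∀ j, W (j % N) = W j := by
      intro j; simp [hW]
    have hmod1 : ∀ j, W (j % N + 1) = W (j + 1) := by
      intro j
      simp [hW]
    have := hunique_step f hf (j1 % N) (j2 % N) (Nat.mod_lt _ hNpos) (Nat.mod_lt _ hNpos)
      (by rw [hmod]; exact p3) (by rw [hmod1]; exact p4) (by rw [hmod]; exact q3)
      (by rw [hmod1]; exact q4)
    have h6 : (j2 - j1) % N = 0 := by
      have : j1 ≡ j2 [MOD N] := this
      exact Nat.mod_eq_zero_of_dvd ((Nat.modEq_iff_dvd' (by omega)).1 this)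
    rw [Nat.mod_eq_of_lt (by omega)] at h6
    omega
  have hlenW : ∀ i, (W i).2.length = n := by
    intro i; rw [(hperm i).length_eq, List.length_finRange]
  have hndW : ∀ i, (W i).2.Nodup := fun i => (hperm i).nodup_iff.2 (List.nodup_finRange n)
  have hinj : ∀ i j, i < j → j < i + N → W i ≠ W j := by
    intro i j hij hjN heq
    -- an interval I = [x, y] with complement [y, x'] where W x = W y
    have key : ∀ x y : ℕ, x < y → y < x + N → W x = W y →
        (∀ k, x ≤ k → k ≤ y → Visits (W k) (face (W x).1 [])) → False := by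
      intro x y hxy hyN hWxy hI
      obtain ⟨k, hk, hex⟩ := adj_exit (hadj x) (hndW x)
      rw [hlenW] at hk
      -- a direction not in the first k
      obtain ⟨d, hd⟩ : ∃ d : Fin n, d ∉ (W x).2.take k := by
        by_contra hcon
        push Not at hcon
        have h7 : (Finset.univ : Finset (Fin n)) ⊆ ((W x).2.take k).toFinset := by
          intro d _; simpa using hcon d
        have h8 := Finset.card_le_card h7
        have h9 := List.toFinset_card_le ((W x).2.take k)
        rw [List.length_take] at h9
        simp at h8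
        omega
      have hprop : Proper (face (W x).1 ((W x).2.take k)) := ⟨d, by simp [face, hd]⟩
      have hv1 : Visits (W x) (face (W x).1 ((W x).2.take k)) := ⟨k, rfl⟩
      have hv2 : Visits (W y) (face (W x).1 ((W x).2.take k)) := by rw [← hWxy]; exact hv1
      rcases hcont _ hprop x y hxy.le hyN.le hv1 hv2 with h | h
      · exact hex (h (x + 1) (by omega) (by omega))
      · -- the vertex obtained by flipping d is visited somewhere
        obtain ⟨m, hm1, hm2, hm3⟩ := hvis (face (Function.update (W x).1 d (!(W x).1 d)) []) x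
        obtain ⟨q, hq⟩ := hm3
        have hfd : (W m).1 d = !(W x).1 d := by
          have := congrFun hq d
          simp only [face, List.not_mem_nil, if_false, Function.update_self] at this
          split_ifs at this
          exact (Option.some.inj this).symm
        by_cases hmy : m ≤ y
        · obtain ⟨q', hq'⟩ := hI m hm1 hmy
          have := congrFun hq' d
          simp only [face, List.not_mem_nil, if_false] at this
          split_ifs at this
          have h10 := Option.some.inj this
          rw [hfd] at h10
          cases (W x).1 d <;> simp at h10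
        · obtain ⟨q', hq'⟩ := h m (by omega) (by omega)
          have := congrFun hq' d
          simp only [face, hd, if_false] at this
          split_ifs at this
          have h10 := Option.some.inj this
          rw [hfd] at h10
          cases (W x).1 d <;> simp at h10
    have hpropv : Proper (face (W i).1 []) := ⟨⟨0, by omega⟩, by simp [face]⟩
    have hv1 : Visits (W i) (face (W i).1 []) := ⟨0, rfl⟩
    have hv2 : Visits (W j) (face (W i).1 []) := by rw [← heq]; exact hv1
    rcases hcont _ hpropv i j hij.le hjN.le hv1 hv2 with h | h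
    · exact key i j hij hjN heq h
    · refine key j (i + N) hjN (by omega) (by rw [hper, heq]) ?_
      intro k hk1 hk2
      rw [← heq]
      exact h k hk1 hk2
  refine ⟨W, hper, hperm, hadj, hinj, ?_, hcont⟩
  intro f _
  obtain ⟨i, _, hi⟩ := hvis0 f
  exact ⟨i, hi⟩

end Pool.Agent.V5helper11.TypeB
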