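import Mathlib
import Pool.Agent.V5helper11.TypeB.Defs

/-! Faces of the type B permutahedron. -/

namespace Pool.Agent.V5helper11.TypeB

open scoped BigOperators

section hull

variable {E : Type*} [NormedAddCommGroup E] [NormedSpace ℝ E]

lemma exposed_hull (S : Finset E) (l : StrongDual ℝ E) :
    {x ∈ convexHull ℝ (S : Set E) | ∀ y ∈ convexHull ℝ (S : Set E), l y ≤ l x} =
      convexHull ℝ {s | s ∈ S ∧ ∀ t ∈ S, l t ≤ l s} := by
  classical
  have hle : ∀ s : E, (∀ t ∈ S, l t ≤ l s) → ∀ y ∈ convexHull ℝ (S : Set E), l y ≤ l s := by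
    intro s hs y hy
    have hc : Convex ℝ {y | l y ≤ l s} := convex_halfSpace_le l.isLinear (l s)
    exact convexHull_min (fun t ht => hs t ht) hc hy
  apply Set.Subset.antisymm
  · rintro x ⟨hx, hmax⟩
    have hne : S.Nonempty := by
      rcases S.eq_empty_or_nonempty with h | h
      · subst h; simp at hx
      · exact h
    obtain ⟨s0, hs0, hs0max⟩ := S.exists_max_image l hne
    have hxM : l x = l s0 := le_antisymm (hle s0 hs0max x hx) (hmax s0 (subset_convexHull ℝ _ hs0))
    rw [Finset.mem_convexHull'] at hx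
    obtain ⟨w, hw0, hw1, hwx⟩ := hx
    have hsum : ∑ y ∈ S, w y * (l s0 - l y) = 0 := by
      have e1 : l x = ∑ y ∈ S, w y * l y := by
        rw [← hwx, map_sum]
        refine Finset.sum_congr rfl (fun y _ => ?_)
        rw [map_smul, smul_eq_mul]
      have e2 : ∑ y ∈ S, w y * (l s0 - l y) = (∑ y ∈ S, w y) * l s0 - ∑ y ∈ S, w y * l y := by
        rw [Finset.sum_mul, ← Finset.sum_sub_distrib]
        refine Finset.sum_congr rfl (fun y _ => by ring)
      rw [e2, hw1, ← e1, hxM]; ring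
    have hz : ∀ y ∈ S, w y * (l s0 - l y) = 0 := by
      rw [Finset.sum_eq_zero_iff_of_nonneg] at hsum
      · exact hsum
      · intro y hy
        exact mul_nonneg (hw0 y hy) (sub_nonneg.2 (hs0max y hy))
    have hset : {s | s ∈ S ∧ ∀ t ∈ S, l t ≤ l s} = ((S.filter (fun y => l y = l s0) : Finset E) : Set E) := by
      ext s
      simp only [Set.mem_ofPred_eq, Finset.coe_filter]
      constructor
      · rintro ⟨h1, h2⟩
        exact ⟨h1, le_antisymm (hs0max s h1) (h2 s0 hs0)⟩
      · rintro ⟨h1, h2⟩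
        exact ⟨h1, fun t ht => by rw [h2]; exact hs0max t ht⟩
    rw [hset, Finset.mem_convexHull']
    have hw' : ∀ y ∈ S, y ∉ S.filter (fun y => l y = l s0) → w y = 0 := by
      intro y hy hn
      have h1 : l y ≠ l s0 := fun h => hn (Finset.mem_filter.2 ⟨hy, h⟩)
      rcases mul_eq_zero.1 (hz y hy) with h | h
      · exact h
      · exact absurd (sub_eq_zero.1 h).symm h1
    refine ⟨w, fun y hy => hw0 y (Finset.mem_filter.1 hy).1, ?_, ?_⟩
    · rw [← hw1]
      refine Finset.sum_subset (Finset.filter_subset _ _) (fun y hy hn => hw' y hy hn)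
    · rw [← hwx]
      refine Finset.sum_subset (Finset.filter_subset _ _) (fun y hy hn => ?_)
      rw [hw' y hy hn, zero_smul]
  · have hC : Convex ℝ {x ∈ convexHull ℝ (S : Set E) | ∀ y ∈ convexHull ℝ (S : Set E), l y ≤ l x} := by
      have : IsExposed ℝ (convexHull ℝ (S : Set E))
          {x ∈ convexHull ℝ (S : Set E) | ∀ y ∈ convexHull ℝ (S : Set E), l y ≤ l x} :=
        fun _ => ⟨l, rfl⟩
      exact this.convex (convex_convexHull ℝ _)
    refine convexHull_min ?_ hC
    rintro s ⟨h1, h2⟩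
    exact ⟨subset_convexHull ℝ _ h1, hle s h2⟩

end hull

/-- sign of a Boolean -/
def sg (b : Bool) : ℝ := if b then 1 else -1

lemma sg_sq (b : Bool) : sg b * sg b = 1 := by cases b <;> simp [sg]

lemma sg_cases (b : Bool) : sg b = 1 ∨ sg b = -1 := by cases b <;> simp [sg]

variable {n : ℕ}

/-- the point with sign vector `v` and rank permutation `σ` -/
def pnt (σ : Equiv.Perm (Fin n)) (v : Fin n → Bool) : Fin n → ℝ :=
  fun d => sg (v d) * (((σ d : Fin n) : ℕ) + 1)

/-- all points -/
noncomputable def pts (n : ℕ) : Finset (Fin n → ℝ) := by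
  classical
  exact Finset.univ.image (fun q : Equiv.Perm (Fin n) × (Fin n → Bool) => pnt q.1 q.2)

lemma mem_pts {x : Fin n → ℝ} : x ∈ pts n ↔ ∃ σ v, x = pnt σ v := by
  classical
  unfold pts
  simp only [Finset.mem_image, Finset.mem_univ, true_and, Prod.exists]
  constructor
  · rintro ⟨σ, v, h⟩; exact ⟨σ, v, h.symm⟩
  · rintro ⟨σ, v, h⟩; exact ⟨σ, v, h.symm⟩

lemma coe_pts : ((pts n : Finset (Fin n → ℝ)) : Set (Fin n → ℝ)) = signedPerms n := by
  classical
  ext x
  rw [Finset.mem_coe, mem_pts]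
  constructor
  · rintro ⟨σ, v, rfl⟩
    exact ⟨σ, fun i => sg (v i), fun i => sg_cases _, fun i => rfl⟩
  · rintro ⟨σ, ε, hε, hx⟩
    refine ⟨σ, fun i => decide (ε i = 1), ?_⟩
    funext i
    rw [hx i, pnt]
    rcases hε i with h | h
    · simp [h, sg]
    · have : ¬ (ε i = 1) := by rw [h]; norm_num
      simp only [sg, h]
      norm_num

/-- linear functional with coefficients `a` -/
noncomputable def lin (a : Fin n → ℝ) : StrongDual ℝ (Fin n → ℝ) :=
  ∑ d, a d • (ContinuousLinearMap.proj d : (Fin n → ℝ) →L[ℝ] ℝ)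

@[simp] lemma lin_apply (a x : Fin n → ℝ) : lin a x = ∑ d, a d * x d := by
  simp [lin]

lemma exists_lin (l : StrongDual ℝ (Fin n → ℝ)) : ∃ a, l = lin a := by
  refine ⟨fun d => l (Pi.single d 1), ?_⟩
  ext x
  rw [lin_apply]
  have := LinearMap.pi_apply_eq_sum_univ (l : (Fin n → ℝ) →ₗ[ℝ] ℝ) x
  simp only [ContinuousLinearMap.coe_coe, smul_eq_mul] at this
  rw [this]
  refine Finset.sum_congr rfl (fun d _ => ?_)
  rw [mul_comm]
  congr 2
  funext j
  simp [Pi.single_apply, eq_comm]

/-- rank of a coordinate as a real number -/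
lemma pnt_ne_zero (σ : Equiv.Perm (Fin n)) (v : Fin n → Bool) (d : Fin n) : pnt σ v d ≠ 0 := by
  unfold pnt
  have h1 : ((σ d : Fin n) : ℝ) + 1 > 0 := by positivity
  rcases sg_cases (v d) with h | h <;> rw [h]
  · have : (1 : ℝ) * (((σ d : Fin n) : ℕ) + 1) > 0 := by simpa using h1
    exact this.ne'
  · have : (-1 : ℝ) * (((σ d : Fin n) : ℕ) + 1) < 0 := by linarith
    exact this.ne

lemma max_sign {a : Fin n → ℝ} {σ : Equiv.Perm (Fin n)} {v : Fin n → Bool}
    (hmax : ∀ t ∈ pts n, lin a t ≤ lin a (pnt σ v)) (d : Fin n) :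
    0 ≤ a d * sg (v d) := by
  classical
  by_contra hneg
  push Not at hneg
  have h1 := hmax (pnt σ (Function.update v d (!v d))) (mem_pts.2 ⟨_, _, rfl⟩)
  rw [lin_apply, lin_apply] at h1
  have h2 : ∑ e, a e * pnt σ (Function.update v d (!v d)) e - ∑ e, a e * pnt σ v e =
      -2 * (a d * pnt σ v d) := by
    rw [← Finset.sum_sub_distrib, Finset.sum_eq_single d]
    · simp only [pnt, Function.update_self]
      cases v d <;> simp [sg] <;> ring
    · intro e _ hed
      simp [pnt, Function.update_of_ne hed]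
    · intro h; exact absurd (Finset.mem_univ d) h
  have h3 : a d * pnt σ v d = (a d * sg (v d)) * (((σ d : Fin n) : ℕ) + 1) := by
    simp only [pnt]; ring
  have h4 : (0 : ℝ) < ((σ d : Fin n) : ℕ) + 1 := by positivity
  have h5 : a d * pnt σ v d < 0 := by
    rw [h3]; exact mul_neg_of_neg_of_pos hneg h4
  linarith

lemma abs_of_max {a : Fin n → ℝ} {σ : Equiv.Perm (Fin n)} {v : Fin n → Bool}
    (hmax : ∀ t ∈ pts n, lin a t ≤ lin a (pnt σ v)) (d : Fin n) :
    a d * sg (v d) = |a d| := by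
  have h := max_sign hmax d
  have h2 : |a d * sg (v d)| = |a d| := by
    rw [abs_mul]
    rcases sg_cases (v d) with h | h <;> rw [h] <;> simp
  rw [← h2, abs_of_nonneg h]

lemma max_order {a : Fin n → ℝ} {σ : Equiv.Perm (Fin n)} {v : Fin n → Bool}
    (hmax : ∀ t ∈ pts n, lin a t ≤ lin a (pnt σ v)) {d e : Fin n} (hde : |a d| < |a e|) :
    σ d < σ e := by
  classical
  by_contra hlt
  push Not at hlt
  have hne : d ≠ e := by rintro rfl; exact lt_irrefl _ hde
  have hσ : σ e < σ d := lt_of_le_of_ne hlt (fun h => hne (σ.injective h.symm))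
  have h1 := hmax (pnt ((Equiv.swap d e).trans σ) v) (mem_pts.2 ⟨_, _, rfl⟩)
  rw [lin_apply, lin_apply] at h1
  have h2 : ∑ x, a x * pnt ((Equiv.swap d e).trans σ) v x - ∑ x, a x * pnt σ v x =
      (|a d| * ((((σ e : Fin n) : ℕ) : ℝ) - ((σ d : Fin n) : ℕ))) +
      (|a e| * ((((σ d : Fin n) : ℕ) : ℝ) - ((σ e : Fin n) : ℕ))) := by
    rw [← Finset.sum_sub_distrib, ← abs_of_max hmax d, ← abs_of_max hmax e]
    rw [Fintype.sum_eq_add d e hne]
    · simp only [pnt, Equiv.trans_apply, Equiv.swap_apply_left, Equiv.swap_apply_right]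
      ring
    · rintro x ⟨hxd, hxe⟩
      simp [pnt, Equiv.swap_apply_of_ne_of_ne hxd hxe]
  have h3 : ((σ e : Fin n) : ℕ) < ((σ d : Fin n) : ℕ) := hσ
  have h4 : ((((σ e : Fin n) : ℕ) : ℝ)) < ((σ d : Fin n) : ℕ) := by exact_mod_cast h3
  nlinarith

/-- the signed permutations on the facet of the face `f` -/
def OnFace (f : Fin n → Option Bool) (σ : Equiv.Perm (Fin n)) (v : Fin n → Bool) : Prop :=
  (∀ d b, f d = some b → v d = b) ∧ (∀ d e, f d = none → f e ≠ none → σ d < σ e)

/-- functional of a face -/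
def cf' (f : Fin n → Option Bool) : Fin n → ℝ := fun d =>
  match f d with
  | none => 0
  | some b => sg b

lemma cf'_none {f : Fin n → Option Bool} {d : Fin n} (h : f d = none) : cf' f d = 0 := by
  simp [cf', h]

lemma cf'_some {f : Fin n → Option Bool} {d : Fin n} {b : Bool} (h : f d = some b) :
    cf' f d = sg b := by
  simp [cf', h]

lemma onFace_of_max {f : Fin n → Option Bool} {σ : Equiv.Perm (Fin n)} {v : Fin n → Bool}
    (hmax : ∀ t ∈ pts n, lin (cf' f) t ≤ lin (cf' f) (pnt σ v)) : OnFace f σ v := by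
  refine ⟨?_, ?_⟩
  · intro d b hd
    have := max_sign hmax d
    rw [cf'_some hd] at this
    cases b <;> cases hv : v d <;> simp_all [sg] <;> linarith
  · intro d e hd he
    apply max_order hmax
    rw [cf'_none hd, abs_zero]
    cases hfe : f e with
    | none => exact absurd hfe he
    | some b =>
      rw [cf'_some hfe]
      rcases sg_cases b with h | h <;> rw [h] <;> norm_num

lemma value_eq {f : Fin n → Option Bool} {σ σ' : Equiv.Perm (Fin n)} {v v' : Fin n → Bool}
    (h : OnFace f σ v) (h' : OnFace f σ' v') :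
    lin (cf' f) (pnt σ v) = lin (cf' f) (pnt σ' v') := by
  classical
  set T : Finset (Fin n) := Finset.univ.filter (fun d => f d ≠ none) with hT
  have hval : ∀ (σ : Equiv.Perm (Fin n)) (v : Fin n → Bool), OnFace f σ v →
      lin (cf' f) (pnt σ v) = ∑ y ∈ T.map σ.toEmbedding, ((y : ℕ) + 1 : ℝ) := by
    intro σ v h
    rw [lin_apply, Finset.sum_map, ← Finset.sum_filter_add_sum_filter_not Finset.univ
      (fun d => f d ≠ none)]
    have h0 : ∑ d ∈ Finset.univ.filter (fun d => ¬ f d ≠ none), cf' f d * pnt σ v d = 0 := by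
      refine Finset.sum_eq_zero (fun d hd => ?_)
      simp only [Finset.mem_filter, Finset.mem_univ, true_and, not_not, ne_eq] at hd
      rw [cf'_none hd, zero_mul]
    rw [h0, add_zero]
    refine Finset.sum_congr rfl (fun d hd => ?_)
    have hd := (Finset.mem_filter.1 hd).2
    cases hfd : f d with
    | none => exact absurd hfd hd
    | some b =>
      rw [cf'_some hfd, pnt, h.1 d b hfd, ← mul_assoc, sg_sq, one_mul]
      rfl
  have hup : ∀ (σ : Equiv.Perm (Fin n)) (v : Fin n → Bool), OnFace f σ v →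
      IsUpperSet ((T.map σ.toEmbedding : Finset (Fin n)) : Set (Fin n)) := by
    intro σ v h y y' hyy' hy
    rw [Finset.mem_coe, Finset.mem_map] at hy ⊢
    obtain ⟨d, hd, rfl⟩ := hy
    refine ⟨σ.symm y', ?_, by simp⟩
    rw [hT, Finset.mem_filter] at hd ⊢
    refine ⟨Finset.mem_univ _, ?_⟩
    intro hn
    have := h.2 (σ.symm y') d hn hd.2
    rw [Equiv.apply_symm_apply] at this
    exact absurd this (not_lt.2 hyy')
  have hset : T.map σ.toEmbedding = T.map σ'.toEmbedding := by
    rcases (hup σ v h).total (hup σ' v' h') with hs | hs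
    · exact Finset.eq_of_subset_of_card_le (by exact_mod_cast hs) (by simp)
    · exact (Finset.eq_of_subset_of_card_le (by exact_mod_cast hs) (by simp)).symm
  rw [hval σ v h, hval σ' v' h', hset]

lemma pts_nonempty (n : ℕ) : (pts n).Nonempty :=
  ⟨pnt (Equiv.refl _) (fun _ => true), mem_pts.2 ⟨_, _, rfl⟩⟩

lemma max_iff_onFace {f : Fin n → Option Bool} {σ : Equiv.Perm (Fin n)} {v : Fin n → Bool} :
    (∀ t ∈ pts n, lin (cf' f) t ≤ lin (cf' f) (pnt σ v)) ↔ OnFace f σ v := by
  refine ⟨onFace_of_max, fun h t ht => ?_⟩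
  obtain ⟨s0, hs0, hs0max⟩ := (pts n).exists_max_image (lin (cf' f)) (pts_nonempty n)
  obtain ⟨σ0, v0, rfl⟩ := mem_pts.1 hs0
  rw [value_eq h (onFace_of_max hs0max)]
  exact hs0max t ht

end Pool.Agent.V5helper11.TypeB
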