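import Mathlib
import Pool.Agent.V5helper11.TypeB.Geometry
import Pool.Agent.V5helper11.TypeB.Cycle

/-! Facets, edges and vertices of the type B permutahedron in terms of flags. -/

namespace Pool.Agent.V5helper11.TypeB

variable {n : ℕ}

lemma typeB_eq : typeBPermutahedron n = convexHull ℝ ((pts n : Finset (Fin n → ℝ)) : Set (Fin n → ℝ)) := by
  rw [coe_pts]; rfl

lemma span_top : vectorSpan ℝ (typeBPermutahedron n) = ⊤ := by
  classical
  rw [typeB_eq, Submodule.eq_top_iff']
  have hs : ∀ d : Fin n, (Pi.single d (1 : ℝ) : Fin n → ℝ) ∈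
      vectorSpan ℝ (convexHull ℝ ((pts n : Finset (Fin n → ℝ)) : Set (Fin n → ℝ))) := by
    intro d
    have h1 : pnt (Equiv.refl (Fin n)) (fun _ => true) ∈
        convexHull ℝ ((pts n : Finset (Fin n → ℝ)) : Set (Fin n → ℝ)) :=
      subset_convexHull ℝ _ (mem_pts.2 ⟨_, _, rfl⟩)
    have h2 : pnt (Equiv.refl (Fin n)) (Function.update (fun _ => true) d false) ∈
        convexHull ℝ ((pts n : Finset (Fin n → ℝ)) : Set (Fin n → ℝ)) :=
      subset_convexHull ℝ _ (mem_pts.2 ⟨_, _, rfl⟩)
    have h3 := vsub_mem_vectorSpan ℝ h1 h2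
    have h4 : pnt (Equiv.refl (Fin n)) (fun _ => true) -ᵥ
        pnt (Equiv.refl (Fin n)) (Function.update (fun _ => true) d false) =
        (2 * ((d : ℕ) + 1 : ℝ)) • (Pi.single d (1 : ℝ) : Fin n → ℝ) := by
      funext e
      by_cases hed : e = d
      · subst hed
        simp [pnt, sg]; ring
      · simp [pnt, sg, Function.update_of_ne hed, Pi.single_eq_of_ne hed]
    rw [h4] at h3
    have h5 : (2 * ((d : ℕ) + 1 : ℝ)) ≠ 0 := by positivity
    have h6 := Submodule.smul_mem _ (2 * ((d : ℕ) + 1 : ℝ))⁻¹ h3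
    rwa [smul_smul, inv_mul_cancel₀ h5, one_smul] at h6
  intro x
  have hx : x = ∑ d, x d • (Pi.single d (1 : ℝ) : Fin n → ℝ) := by
    funext e
    simp [Finset.sum_apply, Pi.single_apply]
  rw [hx]
  exact Submodule.sum_mem _ (fun d _ => Submodule.smul_mem _ _ (hs d))

lemma lin_ne_zero {a : Fin n → ℝ} {d : Fin n} (h : a d ≠ 0) :
    ((lin a : StrongDual ℝ (Fin n → ℝ)) : (Fin n → ℝ) →ₗ[ℝ] ℝ) ≠ 0 := by
  intro h0
  apply h
  have := LinearMap.congr_fun h0 (Pi.single d 1)
  simpa [Pi.single_apply] using this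

/-- classification of the facets -/
theorem facet_form {F : Set (Fin n → ℝ)} (hF : IsFacet (typeBPermutahedron n) F) :
    ∃ f : Fin n → Option Bool, Proper f ∧ ∀ σ v, pnt σ v ∈ F ↔ OnFace f σ v := by
  classical
  obtain ⟨hne, hexp, hdim⟩ := hF
  obtain ⟨l, hl⟩ := hexp hne
  obtain ⟨a, rfl⟩ := exists_lin l
  have hspan : Module.finrank ℝ (vectorSpan ℝ (typeBPermutahedron n)) = n := by
    rw [span_top, finrank_top]; simp
  rw [hspan] at hdim
  have hP := typeB_eq (n := n)
  -- a is nonzero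
  have ha : ∃ d, a d ≠ 0 := by
    by_contra hcon
    push Not at hcon
    have : F = typeBPermutahedron n := by
      rw [hl]
      ext x
      simp [hcon]
    rw [this, hspan] at hdim
    omega
  obtain ⟨d1, hd1⟩ := ha
  obtain ⟨d0, -, hd0⟩ := Finset.exists_max_image (Finset.univ : Finset (Fin n)) (fun d => |a d|)
    ⟨d1, Finset.mem_univ _⟩
  have hpos : 0 < |a d0| := lt_of_lt_of_le (abs_pos.2 hd1) (hd0 d1 (Finset.mem_univ _))
  set f : Fin n → Option Bool := fun d => if |a d| < |a d0| then none else some (decide (0 < a d))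
    with hf
  have hfd0 : f d0 ≠ none := by simp [hf]
  have hfnone : ∀ d, f d = none → |a d| < |a d0| := by
    intro d hd
    by_contra h
    simp [hf, h] at hd
  have hfsome : ∀ d, f d ≠ none → |a d| = |a d0| := by
    intro d hd
    by_contra h
    have : |a d| < |a d0| := lt_of_le_of_ne (hd0 d (Finset.mem_univ _)) h
    simp [hf, this] at hd
  refine ⟨f, ⟨d0, hfd0⟩, ?_⟩
  have hmaxa : ∀ σ v, (∀ t ∈ pts n, lin a t ≤ lin a (pnt σ v)) → OnFace f σ v := by
    intro σ v hmax
    refine ⟨?_, ?_⟩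
    · intro d b hd
      have hne' : f d ≠ none := by rw [hd]; simp
      have hab := hfsome d hne'
      have hb : decide (0 < a d) = b := by
        simp only [hf] at hd
        rw [if_neg (by rw [hab]; exact lt_irrefl _)] at hd
        exact Option.some.inj hd
      have h1 := abs_of_max hmax d
      have hadpos : 0 < |a d| := by rw [hab]; exact hpos
      subst hb
      by_cases hp : 0 < a d
      · rw [abs_of_pos hp] at h1
        cases hv : v d with
        | true => simp [hp]
        | false => rw [hv] at h1; simp [sg] at h1; linarith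
      · have hn' : a d < 0 := by
          rcases lt_trichotomy (a d) 0 with h | h | h
          · exact h
          · rw [h] at hadpos; simp at hadpos
          · exact absurd h hp
        rw [abs_of_neg hn'] at h1
        cases hv : v d with
        | true => rw [hv] at h1; simp [sg] at h1; linarith
        | false => simp [hp]
    · intro d e hd he
      apply max_order hmax
      rw [hfsome e he]
      exact hfnone d hd
  have hFhull : F = convexHull ℝ {s | s ∈ pts n ∧ ∀ t ∈ pts n, lin a t ≤ lin a s} := by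
    rw [hl, hP, exposed_hull]
  set Fc : Set (Fin n → ℝ) := {x ∈ typeBPermutahedron n | ∀ y ∈ typeBPermutahedron n,
    lin (cf' f) y ≤ lin (cf' f) x} with hFc
  have hFchull : Fc = convexHull ℝ
      {s | s ∈ pts n ∧ ∀ t ∈ pts n, lin (cf' f) t ≤ lin (cf' f) s} := by
    rw [hFc, hP, exposed_hull]
  have hsub : F ⊆ Fc := by
    rw [hFhull, hFchull]
    apply convexHull_mono
    rintro s ⟨hs, hmax⟩
    obtain ⟨σ, v, rfl⟩ := mem_pts.1 hs
    exact ⟨hs, max_iff_onFace.2 (hmaxa σ v hmax)⟩
  -- dimension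
  have hcd0 : cf' f d0 ≠ 0 := by
    cases hfd : f d0 with
    | none => exact absurd hfd hfd0
    | some b => rw [cf'_some hfd]; rcases sg_cases b with h | h <;> rw [h] <;> norm_num
  have ka := Module.Dual.finrank_ker_add_one_of_ne_zero (lin_ne_zero hd1)
  have kc := Module.Dual.finrank_ker_add_one_of_ne_zero (lin_ne_zero hcd0)
  rw [Module.finrank_fin_fun] at ka kc
  have hle : ∀ b : Fin n → ℝ, (∀ x ∈ F, ∀ y ∈ F, lin b x = lin b y) →
      vectorSpan ℝ F ≤ LinearMap.ker ((lin b : StrongDual ℝ (Fin n → ℝ)) : (Fin n → ℝ) →ₗ[ℝ] ℝ) := by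
    intro b hb
    rw [vectorSpan_def, Submodule.span_le]
    rintro z ⟨x, hx, y, hy, rfl⟩
    simp only [SetLike.mem_coe, LinearMap.mem_ker, ContinuousLinearMap.coe_coe]
    show lin b (x - y) = 0
    rw [map_sub, hb x hx y hy, sub_self]
  have hFa : ∀ x ∈ F, ∀ y ∈ F, lin a x = lin a y := by
    intro x hx y hy
    rw [hl] at hx hy
    exact le_antisymm (hy.2 x hx.1) (hx.2 y hy.1)
  have hFcc : ∀ x ∈ Fc, ∀ y ∈ Fc, lin (cf' f) x = lin (cf' f) y := by
    intro x hx y hy
    exact le_antisymm (hy.2 x hx.1) (hx.2 y hy.1)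
  have la := hle a hFa
  have lc := hle (cf' f) (fun x hx y hy => hFcc x (hsub hx) y (hsub hy))
  have ea := Submodule.eq_of_le_of_finrank_eq la (by omega)
  have ec := Submodule.eq_of_le_of_finrank_eq lc (by omega)
  intro σ v
  constructor
  · intro hmem
    have h1 := hsub hmem
    apply max_iff_onFace.1
    intro t ht
    exact h1.2 t (by rw [hP]; exact subset_convexHull ℝ _ ht)
  · intro hon
    have h1 : pnt σ v ∈ Fc := by
      rw [hFchull]
      exact subset_convexHull ℝ _ ⟨mem_pts.2 ⟨_, _, rfl⟩, max_iff_onFace.2 hon⟩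
    obtain ⟨x0, hx0⟩ := hne
    have h2 : pnt σ v - x0 ∈
        LinearMap.ker ((lin (cf' f) : StrongDual ℝ (Fin n → ℝ)) : (Fin n → ℝ) →ₗ[ℝ] ℝ) := by
      simp only [LinearMap.mem_ker, ContinuousLinearMap.coe_coe]
      rw [map_sub, hFcc _ h1 _ (hsub hx0), sub_self]
    rw [← ec, ea] at h2
    simp only [LinearMap.mem_ker, ContinuousLinearMap.coe_coe] at h2
    rw [map_sub, sub_eq_zero] at h2
    rw [hl] at hx0 ⊢
    refine ⟨h1.1, fun y hy => ?_⟩
    rw [h2]
    exact hx0.2 y hy

/-- sum of squares -/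
lemma sum_sq (σ : Equiv.Perm (Fin n)) (v : Fin n → Bool) :
    ∑ d, pnt σ v d * pnt σ v d = ∑ k : Fin n, ((k : ℕ) + 1 : ℝ) * ((k : ℕ) + 1) := by
  rw [← Equiv.sum_comp σ (fun k : Fin n => ((k : ℕ) + 1 : ℝ) * ((k : ℕ) + 1))]
  refine Finset.sum_congr rfl (fun d _ => ?_)
  simp only [pnt]
  have := sg_sq (v d)
  linear_combination (((σ d : Fin n) : ℕ) + 1 : ℝ) * (((σ d : Fin n) : ℕ) + 1 : ℝ) * this

lemma edge_of {x y : Fin n → ℝ} (hx : x ∈ pts n) (hy : y ∈ pts n) (hxy : x ≠ y)
    (h1 : ∀ z ∈ pts n, ∀ d, 0 ≤ (x d - z d) * (y d - z d))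
    (h2 : ∀ z ∈ pts n, (∀ d, z d = x d ∨ z d = y d) → z = x ∨ z = y) :
    IsEdge (typeBPermutahedron n) x y := by
  classical
  refine ⟨hxy, fun _ => ⟨lin (x + y), ?_⟩⟩
  rw [typeB_eq, exposed_hull, ← convexHull_pair]
  have hQ : ∀ z ∈ pts n, ∑ d, z d * z d = ∑ k : Fin n, ((k : ℕ) + 1 : ℝ) * ((k : ℕ) + 1) := by
    intro z hz
    obtain ⟨σ, v, rfl⟩ := mem_pts.1 hz
    exact sum_sq σ v
  have key : ∀ z ∈ pts n, lin (x + y) x - lin (x + y) z = ∑ d, (x d - z d) * (y d - z d) := by
    intro z hz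
    have e1 := hQ x hx
    have e2 := hQ z hz
    rw [lin_apply, lin_apply, ← Finset.sum_sub_distrib]
    have e3 : ∑ d, ((x + y) d * x d - (x + y) d * z d) =
        ∑ d, (x d - z d) * (y d - z d) + (∑ d, x d * x d - ∑ d, z d * z d) := by
      rw [← Finset.sum_sub_distrib, ← Finset.sum_add_distrib]
      refine Finset.sum_congr rfl (fun d _ => ?_)
      simp only [Pi.add_apply]; ring
    rw [e3, e1, e2]; ring
  have hge : ∀ z ∈ pts n, lin (x + y) z ≤ lin (x + y) x := by
    intro z hz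
    have := key z hz
    have hs : 0 ≤ ∑ d, (x d - z d) * (y d - z d) := Finset.sum_nonneg (fun d _ => h1 z hz d)
    linarith
  have hyx : lin (x + y) y = lin (x + y) x := by
    have := key y hy
    have h0 : ∑ d, (x d - y d) * (y d - y d) = 0 := by simp
    linarith
  congr 1
  ext z
  simp only [Set.mem_insert_iff, Set.mem_singleton_iff, Set.mem_ofPred_eq]
  constructor
  · rintro (rfl | rfl)
    · exact ⟨hx, hge⟩
    · exact ⟨hy, fun t ht => by rw [hyx]; exact hge t ht⟩
  · rintro ⟨hz, hmax⟩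
    apply h2 z hz
    have h3 := hmax x hx
    have h4 := key z hz
    have h5 : ∑ d, (x d - z d) * (y d - z d) = 0 := by
      have hs : 0 ≤ ∑ d, (x d - z d) * (y d - z d) := Finset.sum_nonneg (fun d _ => h1 z hz d)
      linarith
    rw [Finset.sum_eq_zero_iff_of_nonneg (fun d _ => h1 z hz d)] at h5
    intro d
    rcases mul_eq_zero.1 (h5 d (Finset.mem_univ d)) with h | h
    · left; linarith
    · right; linarith

lemma extreme_of {x : Fin n → ℝ} (hx : x ∈ pts n) :
    x ∈ (typeBPermutahedron n).extremePoints ℝ := by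
  classical
  apply exposedPoints_subset_extremePoints
  rw [mem_exposedPoints_iff_exposed_singleton]
  intro _
  refine ⟨lin x, ?_⟩
  rw [typeB_eq, exposed_hull]
  have hQ : ∀ z ∈ pts n, ∑ d, z d * z d = ∑ k : Fin n, ((k : ℕ) + 1 : ℝ) * ((k : ℕ) + 1) := by
    intro z hz
    obtain ⟨σ, v, rfl⟩ := mem_pts.1 hz
    exact sum_sq σ v
  have key : ∀ z ∈ pts n, 2 * (lin x x - lin x z) = ∑ d, (x d - z d) * (x d - z d) := by
    intro z hz
    have e1 := hQ x hx
    have e2 := hQ z hz
    rw [lin_apply, lin_apply, ← Finset.sum_sub_distrib, Finset.mul_sum]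
    have e3 : ∑ d, 2 * (x d * x d - x d * z d) =
        ∑ d, (x d - z d) * (x d - z d) + (∑ d, x d * x d - ∑ d, z d * z d) := by
      rw [← Finset.sum_sub_distrib, ← Finset.sum_add_distrib]
      refine Finset.sum_congr rfl (fun d _ => by ring)
    rw [e3, e1, e2]; ring
  have hset : {s | s ∈ pts n ∧ ∀ t ∈ pts n, lin x t ≤ lin x s} = {x} := by
    ext z
    simp only [Set.mem_singleton_iff, Set.mem_ofPred_eq]
    constructor
    · rintro ⟨hz, hmax⟩
      have h3 := hmax x hx
      have h4 := key z hz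
      have hnn : ∀ d ∈ (Finset.univ : Finset (Fin n)), 0 ≤ (x d - z d) * (x d - z d) :=
        fun d _ => mul_self_nonneg _
      have h5 : ∑ d, (x d - z d) * (x d - z d) = 0 := by
        have hs := Finset.sum_nonneg hnn
        linarith
      rw [Finset.sum_eq_zero_iff_of_nonneg hnn] at h5
      funext d
      have := mul_self_eq_zero.1 (h5 d (Finset.mem_univ d))
      linarith
    · rintro rfl
      refine ⟨hx, fun t ht => ?_⟩
      have h4 := key t ht
      have hs : 0 ≤ ∑ d, (z d - t d) * (z d - t d) :=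
        Finset.sum_nonneg (fun d _ => mul_self_nonneg _)
      linarith
  rw [hset, convexHull_singleton]

end Pool.Agent.V5helper11.TypeB
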