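import Mathlib
import Pool.Agent.V5helper11.TypeB.Facets

/-! The type B permutahedra are facet-Hamiltonian. -/

namespace Pool.Agent.V5helper11.TypeB

variable {n : ℕ}

/-- a valid flag: the directions are listed once each -/
def Valid (s : Flag (Fin n)) : Prop := s.2.Perm (List.finRange n)

/-- the point of a flag -/
def pt (s : Flag (Fin n)) : Fin n → ℝ := fun d => sg (s.1 d) * ((s.2.idxOf d : ℕ) + 1)

lemma Valid.mem {s : Flag (Fin n)} (h : Valid s) (d : Fin n) : d ∈ s.2 :=
  h.symm.subset (List.mem_finRange d)

lemma Valid.nodup {s : Flag (Fin n)} (h : Valid s) : s.2.Nodup :=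
  h.nodup_iff.2 (List.nodup_finRange n)

lemma Valid.length {s : Flag (Fin n)} (h : Valid s) : s.2.length = n := by
  rw [List.Perm.length_eq h, List.length_finRange]

lemma exists_rank {s : Flag (Fin n)} (h : Valid s) :
    ∃ σ : Equiv.Perm (Fin n), (∀ d, ((σ d : Fin n) : ℕ) = s.2.idxOf d) ∧ pt s = pnt σ s.1 := by
  have hlt : ∀ d, s.2.idxOf d < n := by
    intro d
    have := List.idxOf_lt_length_of_mem (h.mem d)
    rwa [h.length] at this
  have hinj : Function.Injective (fun d : Fin n => (⟨s.2.idxOf d, hlt d⟩ : Fin n)) := by
    intro d e hde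
    have := congrArg Fin.val hde
    simp only at this
    exact (List.idxOf_inj (h.mem d)).1 this
  refine ⟨Equiv.ofBijective _ (Finite.injective_iff_bijective.1 hinj), fun d => rfl, ?_⟩
  rfl

lemma pt_mem {s : Flag (Fin n)} (h : Valid s) : pt s ∈ pts n := by
  obtain ⟨σ, -, h2⟩ := exists_rank h
  exact mem_pts.2 ⟨σ, s.1, h2⟩

lemma visits_iff {s : Flag (Fin n)} (h : Valid s) {f : Fin n → Option Bool} (hf : Proper f)
    {σ : Equiv.Perm (Fin n)} (hσ : ∀ d, ((σ d : Fin n) : ℕ) = s.2.idxOf d) :
    Visits s f ↔ OnFace f σ s.1 := by
  constructor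
  · rintro ⟨k, hk⟩
    have hmem : ∀ d, f d = none ↔ s.2.idxOf d < k := by
      intro d
      rw [← List.mem_take_iff_idxOf_lt (h.mem d), hk]
      simp only [face]
      split_ifs with h1 <;> simp [h1]
    refine ⟨?_, ?_⟩
    · intro d b hd
      rw [hk] at hd
      simp only [face] at hd
      split_ifs at hd with h1
      exact Option.some.inj hd
    · intro d e hd he
      have h1 := (hmem d).1 hd
      have h2 : ¬ s.2.idxOf e < k := fun h => he ((hmem e).2 h)
      rw [Fin.lt_def, hσ d, hσ e]
      omega
  · rintro ⟨h1, h2⟩
    obtain ⟨d0, hd0⟩ := hf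
    obtain ⟨e, he, hemin⟩ := Finset.exists_min_image
      (Finset.univ.filter (fun d : Fin n => f d ≠ none)) (fun d => s.2.idxOf d)
      ⟨d0, Finset.mem_filter.2 ⟨Finset.mem_univ _, hd0⟩⟩
    have he' := (Finset.mem_filter.1 he).2
    refine ⟨s.2.idxOf e, ?_⟩
    funext d
    simp only [face]
    cases hfd : f d with
    | none =>
      have := h2 d e hfd he'
      rw [Fin.lt_def, hσ d, hσ e] at this
      rw [if_pos]
      exact (List.mem_take_iff_idxOf_lt (h.mem d)).2 this
    | some b =>
      have h3 : f d ≠ none := by rw [hfd]; simp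
      have := hemin d (Finset.mem_filter.2 ⟨Finset.mem_univ _, h3⟩)
      rw [if_neg]
      · rw [h1 d b hfd]
      · intro h4
        have := (List.mem_take_iff_idxOf_lt (h.mem d)).1 h4
        omega

lemma abs_pt (s : Flag (Fin n)) (d : Fin n) : |pt s d| = (s.2.idxOf d : ℕ) + 1 := by
  unfold pt
  rw [abs_mul]
  have h1 : |sg (s.1 d)| = 1 := by
    rcases sg_cases (s.1 d) with h | h <;> rw [h] <;> simp
  rw [h1, one_mul, abs_of_nonneg (by positivity)]

lemma pt_inj {s t : Flag (Fin n)} (hs : Valid s) (ht : Valid t) (h : pt s = pt t) : s = t := by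
  have hidx : ∀ d, s.2.idxOf d = t.2.idxOf d := by
    intro d
    have h1 := abs_pt s d
    rw [h, abs_pt t d] at h1
    have h2 : ((t.2.idxOf d : ℕ) : ℝ) = (s.2.idxOf d : ℕ) := by linarith
    exact_mod_cast h2.symm
  refine Prod.ext ?_ ?_
  · funext d
    have h1 := congrFun h d
    unfold pt at h1
    rw [hidx d] at h1
    have h2 : ((t.2.idxOf d : ℕ) : ℝ) + 1 ≠ 0 := by positivity
    have h3 := mul_right_cancel₀ h2 h1
    revert h3
    unfold sg
    cases s.1 d <;> cases t.1 d <;> simp <;> norm_num
  · apply List.ext_getElem (by rw [hs.length, ht.length])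
    intro i h1 h2
    have h3 : s.2.idxOf s.2[i] = i := hs.nodup.idxOf_getElem i h1
    rw [hidx] at h3
    have h4 : t.2.idxOf s.2[i] < t.2.length := List.idxOf_lt_length_of_mem (ht.mem _)
    have h5 : t.2[t.2.idxOf s.2[i]] = s.2[i] := List.getElem_idxOf h4
    rw [← h5]
    congr 1

lemma coord_int (z : Fin n → ℝ) (hz : z ∈ pts n) (d : Fin n) :
    ∃ m : ℤ, z d = m ∧ m ≠ 0 := by
  obtain ⟨σ, v, rfl⟩ := mem_pts.1 hz
  unfold pnt sg
  cases v d with
  | true => exact ⟨((σ d : Fin n) : ℕ) + 1, by simp, by positivity⟩
  | false => exact ⟨-(((σ d : Fin n) : ℕ) + 1 : ℤ), by simp, by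
      have : (0 : ℤ) < ((σ d : Fin n) : ℕ) + 1 := by positivity
      omega⟩

lemma prod_nonneg_int (m k : ℤ) : 0 ≤ (m - k) * (m + 1 - k) := by
  rcases le_or_gt k m with h | h
  · exact mul_nonneg (by omega) (by omega)
  · exact mul_nonneg_of_nonpos_of_nonpos (by omega) (by omega)

/-- adjacent flags span edges -/
lemma edge_of_adj {s t : Flag (Fin n)} (hs : Valid s) (ht : Valid t) (h : Adj s t) :
    IsEdge (typeBPermutahedron n) (pt s) (pt t) := by
  have hne : s ≠ t := by
    intro heq
    obtain ⟨k, -, hk⟩ := adj_exit h hs.nodup
    apply hk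
    rw [← heq]
    exact ⟨k, rfl⟩
  refine edge_of (pt_mem hs) (pt_mem ht) (fun h => hne (pt_inj hs ht h)) ?_ ?_
  · intro z hz d
    cases h with
    | flip v a l =>
      by_cases hd : d = a
      · subst hd
        obtain ⟨m, hm, hm0⟩ := coord_int z hz d
        have h1 : pt (v, d :: l) d = sg (v d) := by simp [pt]
        have h2 : pt (Function.update v d (!v d), d :: l) d = - sg (v d) := by
          simp only [pt, Function.update_self, List.idxOf_cons_self]
          cases v d <;> simp [sg]
        rw [h1, h2, hm]
        have h3 : (1 : ℝ) ≤ (m : ℝ) * m := by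
          have : (1 : ℤ) ≤ m * m := by
            rcases lt_or_gt_of_ne hm0 with h | h <;> nlinarith
          exact_mod_cast this
        have h4 := sg_sq (v d)
        nlinarith
      · have h1 : pt (v, a :: l) d = pt (Function.update v a (!v a), a :: l) d := by
          simp [pt, Function.update_of_ne hd]
        rw [h1]
        exact mul_self_nonneg _
    | swap v C a b l =>
      have hnd := hs.nodup
      simp only at hnd
      have haC : a ∉ C := by
        intro h
        rw [List.nodup_append] at hnd
        exact hnd.2.2 a h a (by simp) rfl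
      have hbC : b ∉ C := by
        intro h
        rw [List.nodup_append] at hnd
        exact hnd.2.2 b h b (by simp) rfl
      have hab : a ≠ b := by
        intro h; subst h
        rw [List.nodup_append] at hnd
        have := hnd.2.1
        simp at this
      have i1 : (C ++ a :: b :: l).idxOf a = C.length := by
        rw [List.idxOf_append, if_neg haC]; simp
      have i2 : (C ++ a :: b :: l).idxOf b = C.length + 1 := by
        rw [List.idxOf_append, if_neg hbC]
        rw [List.idxOf_cons_ne _ hab, List.idxOf_cons_self]
        omega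
      have i3 : (C ++ b :: a :: l).idxOf b = C.length := by
        rw [List.idxOf_append, if_neg hbC]; simp
      have i4 : (C ++ b :: a :: l).idxOf a = C.length + 1 := by
        rw [List.idxOf_append, if_neg haC]
        rw [List.idxOf_cons_ne _ (Ne.symm hab), List.idxOf_cons_self]
        omega
      obtain ⟨m, hm, hm0⟩ := coord_int z hz d
      by_cases hda : d = a
      · subst hda
        have h1 : pt (v, C ++ d :: b :: l) d = sg (v d) * (C.length + 1) := by
          simp only [pt, i1]
        have h2 : pt (v, C ++ b :: d :: l) d = sg (v d) * (C.length + 2) := by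
          simp only [pt, i4]; push_cast; ring
        rw [h1, h2, hm]
        rcases sg_cases (v d) with h | h
        · rw [h]
          have := prod_nonneg_int (C.length + 1) m
          have h5 : (0 : ℝ) ≤ (((C.length : ℤ) + 1 - m) * ((C.length : ℤ) + 1 + 1 - m) : ℤ) := by
            exact_mod_cast this
          push_cast at h5
          nlinarith
        · rw [h]
          have := prod_nonneg_int (C.length + 1) (-m)
          have h5 : (0 : ℝ) ≤ (((C.length : ℤ) + 1 - (-m)) * ((C.length : ℤ) + 1 + 1 - (-m)) : ℤ) := by
            exact_mod_cast this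
          push_cast at h5
          nlinarith
      · by_cases hdb : d = b
        · subst hdb
          have h1 : pt (v, C ++ a :: d :: l) d = sg (v d) * (C.length + 2) := by
            simp only [pt, i2]; push_cast; ring
          have h2 : pt (v, C ++ d :: a :: l) d = sg (v d) * (C.length + 1) := by
            simp only [pt, i3]
          rw [h1, h2, hm]
          rcases sg_cases (v d) with h | h
          · rw [h]
            have := prod_nonneg_int (C.length + 1) m
            have h5 : (0 : ℝ) ≤ (((C.length : ℤ) + 1 - m) * ((C.length : ℤ) + 1 + 1 - m) : ℤ) := by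
              exact_mod_cast this
            push_cast at h5
            nlinarith
          · rw [h]
            have := prod_nonneg_int (C.length + 1) (-m)
            have h5 : (0 : ℝ) ≤ (((C.length : ℤ) + 1 - (-m)) * ((C.length : ℤ) + 1 + 1 - (-m)) : ℤ) := by
              exact_mod_cast this
            push_cast at h5
            nlinarith
        · have i5 : (C ++ a :: b :: l).idxOf d = (C ++ b :: a :: l).idxOf d := by
            rw [List.idxOf_append, List.idxOf_append]
            rw [List.idxOf_cons_ne _ (Ne.symm hda), List.idxOf_cons_ne _ (Ne.symm hdb),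
              List.idxOf_cons_ne _ (Ne.symm hdb), List.idxOf_cons_ne _ (Ne.symm hda)]
          have h1 : pt (v, C ++ a :: b :: l) d = pt (v, C ++ b :: a :: l) d := by
            simp only [pt, i5]
          rw [h1]
          exact mul_self_nonneg _
  · intro z hz hall
    have hzabs : ∀ d e, |z d| = |z e| → d = e := by
      obtain ⟨τ, w, rfl⟩ := mem_pts.1 hz
      intro d e hde
      have h1 : ∀ x, |pnt τ w x| = ((τ x : Fin n) : ℕ) + 1 := by
        intro x
        unfold pnt
        rw [abs_mul]
        have h2 : |sg (w x)| = 1 := by
          rcases sg_cases (w x) with h | h <;> rw [h] <;> simp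
        rw [h2, one_mul, abs_of_nonneg (by positivity)]
      rw [h1, h1] at hde
      have h3 : ((((τ d : Fin n) : ℕ)) : ℝ) = ((τ e : Fin n) : ℕ) := by linarith
      have h4 : ((τ d : Fin n) : ℕ) = ((τ e : Fin n) : ℕ) := by exact_mod_cast h3
      exact τ.injective (Fin.ext h4)
    cases h with
    | flip v a l =>
      have hoff : ∀ d, d ≠ a → pt (v, a :: l) d = pt (Function.update v a (!v a), a :: l) d := by
        intro d hd
        simp [pt, Function.update_of_ne hd]
      rcases hall a with h1 | h1
      · left
        funext d
        by_cases hd : d = a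
        · rw [hd]; exact h1
        · rcases hall d with h2 | h2
          · exact h2
          · rw [h2, hoff d hd]
      · right
        funext d
        by_cases hd : d = a
        · rw [hd]; exact h1
        · rcases hall d with h2 | h2
          · rw [h2, hoff d hd]
          · exact h2
    | swap v C a b l =>
      have hnd := hs.nodup
      simp only at hnd
      have haC : a ∉ C := by
        intro h
        rw [List.nodup_append] at hnd
        exact hnd.2.2 a h a (by simp) rfl
      have hbC : b ∉ C := by
        intro h
        rw [List.nodup_append] at hnd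
        exact hnd.2.2 b h b (by simp) rfl
      have hab : a ≠ b := by
        intro h; subst h
        rw [List.nodup_append] at hnd
        have := hnd.2.1
        simp at this
      have i1 : (C ++ a :: b :: l).idxOf a = C.length := by
        rw [List.idxOf_append, if_neg haC]; simp
      have i2 : (C ++ a :: b :: l).idxOf b = C.length + 1 := by
        rw [List.idxOf_append, if_neg hbC]
        rw [List.idxOf_cons_ne _ hab, List.idxOf_cons_self]
        omega
      have i3 : (C ++ b :: a :: l).idxOf b = C.length := by
        rw [List.idxOf_append, if_neg hbC]; simp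
      have i4 : (C ++ b :: a :: l).idxOf a = C.length + 1 := by
        rw [List.idxOf_append, if_neg haC]
        rw [List.idxOf_cons_ne _ (Ne.symm hab), List.idxOf_cons_self]
        omega
      have hoff : ∀ d, d ≠ a → d ≠ b → pt (v, C ++ a :: b :: l) d = pt (v, C ++ b :: a :: l) d := by
        intro d hda hdb
        have i5 : (C ++ a :: b :: l).idxOf d = (C ++ b :: a :: l).idxOf d := by
            rw [List.idxOf_append, List.idxOf_append]
            rw [List.idxOf_cons_ne _ (Ne.symm hda), List.idxOf_cons_ne _ (Ne.symm hdb),
              List.idxOf_cons_ne _ (Ne.symm hdb), List.idxOf_cons_ne _ (Ne.symm hda)]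
        simp only [pt, i5]
      rcases hall a with h1 | h1 <;> rcases hall b with h2 | h2
      · left
        funext d
        by_cases hda : d = a
        · rw [hda]; exact h1
        · by_cases hdb : d = b
          · rw [hdb]; exact h2
          · rcases hall d with h3 | h3
            · exact h3
            · rw [h3, hoff d hda hdb]
      · exfalso
        apply hab
        apply hzabs
        rw [h1, h2, abs_pt, abs_pt]
        simp only [i1, i3]
      · exfalso
        apply hab
        apply hzabs
        rw [h1, h2, abs_pt, abs_pt]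
        simp only [i2, i4]
      · right
        funext d
        by_cases hda : d = a
        · rw [hda]; exact h1
        · by_cases hdb : d = b
          · rw [hdb]; exact h2
          · rcases hall d with h3 | h3
            · rw [h3, hoff d hda hdb]
            · exact h3

/-- The type B permutahedron is facet-Hamiltonian in every dimension at least two. -/
theorem typeB_facetHamiltonian (n : ℕ) (hn : 2 ≤ n) :
    FacetHamiltonian (typeBPermutahedron n) := by
  obtain ⟨W, hper, hperm, hadj, hinj, hvis, hcont⟩ := cycle_exists n hn
  set N := 3 ^ n - 1 with hN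
  have hN8 : 8 ≤ N := by
    have : 3 ^ 2 ≤ 3 ^ n := Nat.pow_le_pow_right (by norm_num) hn
    omega
  have : NeZero N := ⟨by omega⟩
  have hmod : ∀ k, W (k % N) = W k := by
    intro k
    exact Function.Periodic.map_mod_nat (f := W) hper k
  set c : ZMod N → (Fin n → ℝ) := fun i => pt (W i.val) with hc
  have hcast : ∀ k : ℕ, c (k : ZMod N) = pt (W k) := by
    intro k
    simp only [hc]
    rw [ZMod.val_natCast, hmod]
  have hval : ∀ i : ZMod N, ((i.val : ℕ) : ZMod N) = i := fun i => ZMod.natCast_zmod_val i
  have hone : ∀ k : ℕ, ((k : ZMod N)) + 1 = ((k + 1 : ℕ) : ZMod N) := by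
    intro k; push_cast; ring
  have hvalid : ∀ k, Valid (W k) := hperm
  refine ⟨N, c, by omega, ?_, ?_, ?_, ?_⟩
  · intro i j hij
    by_contra hne
    have h1 : W i.val = W j.val := pt_inj (hvalid _) (hvalid _) hij
    have hi := ZMod.val_lt i
    have hj := ZMod.val_lt j
    have hne' : i.val ≠ j.val := fun h => hne (ZMod.val_injective N h)
    rcases lt_or_gt_of_ne hne' with h | h
    · exact hinj _ _ h (by omega) h1
    · exact hinj _ _ h (by omega) h1.symm
  · intro i
    exact extreme_of (pt_mem (hvalid _))
  · intro i
    have h1 : c (i + 1) = pt (W (i.val + 1)) := by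
      rw [← hval i, hone, hcast, hval]
    rw [h1]
    exact edge_of_adj (hvalid _) (hvalid _) (hadj _)
  · intro F hF
    obtain ⟨f, hf, hform⟩ := facet_form hF
    have hmem : ∀ k : ℕ, pt (W k) ∈ F ↔ Visits (W k) f := by
      intro k
      obtain ⟨σ, h1, h2⟩ := exists_rank (hvalid k)
      rw [h2, hform, visits_iff (hvalid k) hf h1]
    have hconv : Convex ℝ F := by
      refine hF.2.1.convex ?_
      exact convex_convexHull ℝ _
    have h10 : (1 : ZMod N) ≠ 0 := by
      intro h
      have : ((1 : ℕ) : ZMod N) = 0 := by exact_mod_cast h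
      rw [ZMod.natCast_eq_zero_iff] at this
      have := Nat.le_of_dvd one_pos this
      omega
    -- chains
    have chain : ∀ (A m : ℕ), (∀ k, A ≤ k → k ≤ A + m → Visits (W k) f) →
        ∀ (x y : {i : ZMod N // c i ∈ F}), x.1 = (A : ZMod N) → y.1 = ((A + m : ℕ) : ZMod N) →
        (partGraph c F).Reachable x y := by
      intro A m
      induction m with
      | zero =>
        intro _ x y hx hy
        have : x = y := Subtype.ext (by rw [hx, hy]; simp)
        rw [this]
      | succ m ih =>
        intro hk x y hx hy
        have hm : c ((A + m : ℕ) : ZMod N) ∈ F := by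
          rw [hcast, hmem]; exact hk _ (by omega) (by omega)
        have h1 := ih (fun k h1 h2 => hk k h1 (by omega)) x ⟨_, hm⟩ hx rfl
        refine h1.trans (SimpleGraph.Adj.reachable ?_)
        have hy' : y.1 = ((A + m : ℕ) : ZMod N) + 1 := by
          rw [hy, hone]; congr 1
        refine ⟨?_, Or.inl hy', ?_⟩
        · intro heq
          have : ((A + m : ℕ) : ZMod N) = y.1 := congrArg Subtype.val heq
          rw [hy'] at this
          exact h10 (by linear_combination -this)
        · exact hconv.segment_subset hm y.2
    have hpre : (partGraph c F).Preconnected := by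
      intro x y
      have hx : Visits (W x.1.val) f := by
        rw [← hmem, ← hcast, hval]; exact x.2
      have hy : Visits (W y.1.val) f := by
        rw [← hmem, ← hcast, hval]; exact y.2
      have hxl := ZMod.val_lt x.1
      have hyl := ZMod.val_lt y.1
      obtain ⟨B, hB1, hB2, hB3, hB4⟩ : ∃ B : ℕ, x.1.val ≤ B ∧ B ≤ x.1.val + N ∧
          (B : ZMod N) = y.1 ∧ Visits (W B) f := by
        by_cases hle : x.1.val ≤ y.1.val
        · exact ⟨y.1.val, hle, by omega, hval _, hy⟩
        · refine ⟨y.1.val + N, by omega, by omega, ?_, ?_⟩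
          · push_cast
            rw [hval]; simp
          · rw [hper]; exact hy
      rcases hcont f hf x.1.val B hB1 hB2 hx hB4 with h | h
      · obtain ⟨m, rfl⟩ := Nat.exists_eq_add_of_le hB1
        exact chain x.1.val m (fun k h1 h2 => h k h1 h2) x y (hval _).symm hB3.symm
      · obtain ⟨m, hm⟩ := Nat.exists_eq_add_of_le hB2
        refine (chain B m (fun k h1 h2 => h k h1 (by omega)) y x hB3.symm ?_).symm
        rw [← hm]
        push_cast
        rw [hval]; simp
    have hnonempty : Nonempty {i : ZMod N // c i ∈ F} := by
      obtain ⟨i, hi⟩ := hvis f hf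
      exact ⟨⟨(i : ZMod N), by rw [hcast, hmem]; exact hi⟩⟩
    exact ⟨hpre⟩

end Pool.Agent.V5helper11.TypeB
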